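import Mathlib

/-!
# Perturbation lemmas for phase retrieval by projections

* `small_param`: a family of homogeneous forms depending continuously on a parameter, nonsingular
  at the parameter `0`, is nonsingular for some positive parameter.
* `graph_bound`, `perturb`: symmetric forms that vanish on `K × K` and on `Kᗮ × Kᗮ` are derivatives
  of projections at the projection onto `K`.
* `rank_two`: the projection onto the span of two orthogonal unit vectors.
-/

open scoped InnerProductSpace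

namespace Pool.Agent.Lib_helper96.OD

section param
variable {E : Type*} [NormedAddCommGroup E] [NormedSpace ℝ E] [FiniteDimensional ℝ E]

theorem small_param {ι : Type*} (F : ι → ℝ → E → E → ℂ)
    (hc : ∀ i, Continuous (fun p : ℝ × E × E => F i p.1 p.2.1 p.2.2))
    (hh : ∀ i t (a b : ℝ) x y, F i t (a • x) (b • y) = (a : ℂ) * b * F i t x y)
    (h0 : ∀ x y, (∀ i, F i 0 x y = 0) → x = 0 ∨ y = 0) :
    ∃ δ : ℝ, 0 < δ ∧ ∀ x y, (∀ i, F i δ x y = 0) → x = 0 ∨ y = 0 := by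
  have : ProperSpace E := FiniteDimensional.proper_real E
  set S : Set (ℝ × E × E) := (Set.Icc (0 : ℝ) 1) ×ˢ ((Metric.sphere (0 : E) 1) ×ˢ
    (Metric.sphere (0 : E) 1)) with hS
  have hScomp : IsCompact S :=
    isCompact_Icc.prod ((isCompact_sphere _ _).prod (isCompact_sphere _ _))
  set Z : Set (ℝ × E × E) := S ∩ ⋂ i, {p | F i p.1 p.2.1 p.2.2 = 0} with hZ
  have hZcomp : IsCompact Z := by
    apply hScomp.inter_right
    apply isClosed_iInter
    intro i
    exact isClosed_eq (hc i) continuous_const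
  have him : IsClosed (Prod.fst '' Z) := (hZcomp.image continuous_fst).isClosed
  have h0n : (0 : ℝ) ∉ Prod.fst '' Z := by
    rintro ⟨⟨t, x, y⟩, hp, ht⟩
    simp only at ht
    subst ht
    rw [hZ, Set.mem_inter_iff, Set.mem_iInter, hS] at hp
    obtain ⟨⟨_, hx, hy⟩, hF⟩ := hp
    simp only [mem_sphere_iff_norm, sub_zero] at hx hy
    rcases h0 x y hF with h | h
    · rw [h] at hx; simp at hx
    · rw [h] at hy; simp at hy
  have hopen : IsOpen (Prod.fst '' Z)ᶜ := him.isOpen_compl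
  obtain ⟨r, hr, hball⟩ := Metric.isOpen_iff.mp hopen 0 h0n
  refine ⟨min (r / 2) 1, by positivity, fun x y hF => ?_⟩
  by_contra hxy
  push Not at hxy
  obtain ⟨hx, hy⟩ := hxy
  have hδ : min (r / 2) 1 ∈ Metric.ball (0 : ℝ) r := by
    rw [Metric.mem_ball, dist_zero_right, Real.norm_eq_abs, abs_of_pos (by positivity)]
    exact (min_le_left _ _).trans_lt (by linarith)
  apply hball hδ
  refine ⟨(min (r / 2) 1, ‖x‖⁻¹ • x, ‖y‖⁻¹ • y), ?_, rfl⟩
  rw [hZ, Set.mem_inter_iff, Set.mem_iInter]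
  refine ⟨⟨⟨by positivity, min_le_right _ _⟩, ?_, ?_⟩, fun i => ?_⟩
  · simp [norm_smul, hx]
  · simp [norm_smul, hy]
  · simp only [Set.mem_ofPred_eq]
    rw [hh, hF i, mul_zero]

end param

section inner
variable {E : Type*} [NormedAddCommGroup E] [InnerProductSpace ℝ E] [FiniteDimensional ℝ E]

/-- The graph of `η A` over `K`. -/
def graphOver (K : Submodule ℝ E) (A : E →ₗ[ℝ] E) (η : ℝ) : Submodule ℝ E :=
  K.map (LinearMap.id + η • A)

theorem graph_bound (K : Submodule ℝ E) (A : E →ₗ[ℝ] E) (hA : ∀ x ∈ K, A x ∈ Kᗮ) :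
    ∃ C : ℝ, 0 ≤ C ∧ ∀ η : ℝ, 0 < η → η ≤ 1 → ∀ x y : E,
      |⟪(graphOver K A η).starProjection x, y⟫_ℝ - ⟪K.starProjection x, y⟫_ℝ
        - η * (⟪A (K.starProjection x), y⟫_ℝ + ⟪A (K.starProjection y), x⟫_ℝ)|
      ≤ C * η ^ 2 * ‖x‖ * ‖y‖ := by
  set B : E →L[ℝ] E := LinearMap.toContinuousLinearMap A with hB
  have hBA : ∀ x, A x = B x := fun x => rfl
  set b : ℝ := ‖B‖ with hb
  have hb0 : 0 ≤ b := norm_nonneg _
  have hAn : ∀ x, ‖A x‖ ≤ b * ‖x‖ := fun x => B.le_opNorm x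
  refine ⟨b ^ 2 * (1 + b) + b ^ 2, by positivity, fun η hη0 hη1 x y => ?_⟩
  set W := graphOver K A η with hW
  set u := W.starProjection x with hu
  have huW : u ∈ W := Submodule.starProjection_apply_mem _ _
  obtain ⟨p, hp, hpu⟩ := Submodule.mem_map.mp huW
  have hpu' : p + η • A p = u := by simpa using hpu
  have hmem : ∀ q ∈ K, q + η • A q ∈ W := by
    intro q hq
    refine Submodule.mem_map.mpr ⟨q, hq, by simp⟩
  have hxu : ∀ q ∈ K, ⟪x - u, q + η • A q⟫_ℝ = 0 := by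
    intro q hq
    have h1 : x - u ∈ Wᗮ := Submodule.sub_starProjection_mem_orthogonal x
    rw [real_inner_comm]
    exact h1 _ (hmem q hq)
  set Px := K.starProjection x with hPx
  set Py := K.starProjection y with hPy
  have hPxK : Px ∈ K := Submodule.starProjection_apply_mem _ _
  have hPyK : Py ∈ K := Submodule.starProjection_apply_mem _ _
  have hxP : ∀ q ∈ K, ⟪x, q⟫_ℝ = ⟪Px, q⟫_ℝ := by
    intro q hq
    have h1 : x - Px ∈ Kᗮ := Submodule.sub_starProjection_mem_orthogonal x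
    have h2 := h1 q hq
    rw [inner_sub_right] at h2
    rw [real_inner_comm, real_inner_comm q Px]
    linarith
  have hyP : ∀ q ∈ K, ⟪q, y⟫_ℝ = ⟪q, Py⟫_ℝ := by
    intro q hq
    have h1 : y - Py ∈ Kᗮ := Submodule.sub_starProjection_mem_orthogonal y
    have h2 := h1 q hq
    rw [inner_sub_right] at h2
    linarith
  have hort : ∀ q ∈ K, ∀ q' ∈ K, ⟪q, A q'⟫_ℝ = 0 := fun q hq q' hq' => hA q' hq' q hq
  have hort' : ∀ q ∈ K, ∀ q' ∈ K, ⟪A q, q'⟫_ℝ = 0 := fun q hq q' hq' => by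
    rw [real_inner_comm]; exact hort q' hq' q hq
  -- norm of p
  have hun : ‖u‖ ≤ ‖x‖ := Submodule.norm_starProjection_apply_le _ _
  have hpn : ‖p‖ ≤ ‖x‖ := by
    have h1 : ‖u‖ ^ 2 = ‖p‖ ^ 2 + ‖η • A p‖ ^ 2 := by
      rw [← hpu', ← real_inner_self_eq_norm_sq, ← real_inner_self_eq_norm_sq,
        ← real_inner_self_eq_norm_sq, inner_add_left, inner_add_right, inner_add_right,
        inner_smul_right, inner_smul_left, hort p hp p hp, hort' p hp p hp]
      simp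
    have h2 : ‖p‖ ^ 2 ≤ ‖u‖ ^ 2 := by rw [h1]; nlinarith [sq_nonneg ‖η • A p‖]
    exact ((sq_le_sq₀ (norm_nonneg _) (norm_nonneg _)).mp h2).trans hun
  have hdiff : ‖Px - p‖ ≤ η * b * ((1 + b) * ‖x‖) := by
    have hm : Px - p ∈ K := K.sub_mem hPxK hp
    have h1 := hxu (Px - p) hm
    rw [← hpu', inner_add_right, inner_smul_right] at h1
    have h2 : ⟪x - (p + η • A p), Px - p⟫_ℝ = ‖Px - p‖ ^ 2 := by
      rw [inner_sub_left, inner_add_left, inner_smul_left, hort' p hp _ hm, hxP _ hm,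
        ← real_inner_self_eq_norm_sq]
      rw [inner_sub_left]
      simp
    rw [h2] at h1
    have h3 : ‖Px - p‖ ^ 2 ≤ η * (‖x - (p + η • A p)‖ * (b * ‖Px - p‖)) := by
      have h4 : |⟪x - (p + η • A p), A (Px - p)⟫_ℝ| ≤ ‖x - (p + η • A p)‖ * (b * ‖Px - p‖) :=
        (abs_real_inner_le_norm _ _).trans (mul_le_mul_of_nonneg_left (hAn _) (norm_nonneg _))
      have h5 := neg_abs_le ⟪x - (p + η • A p), A (Px - p)⟫_ℝ
      nlinarith
    have h6 : ‖x - (p + η • A p)‖ ≤ (1 + b) * ‖x‖ := by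
      rw [hpu']
      have h7 : ‖x - u‖ ≤ ‖x‖ := by
        have h10 : ⟪x - u, u⟫_ℝ = 0 := by
          have := hxu p hp
          rwa [hpu'] at this
        have h11 : ‖x - u‖ ^ 2 = ⟪x - u, x⟫_ℝ := by
          rw [← real_inner_self_eq_norm_sq, inner_sub_right, h10, sub_zero]
        have h12 := real_inner_le_norm (x - u) x
        rcases (norm_nonneg (x - u)).eq_or_lt with h13 | h13
        · rw [← h13]; exact norm_nonneg x
        · nlinarith
      nlinarith [norm_nonneg x]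
    rcases (norm_nonneg (Px - p)).eq_or_lt with h8 | h8
    · rw [← h8]; positivity
    · have h9 : ‖Px - p‖ * ‖Px - p‖ ≤ (η * b * ((1 + b) * ‖x‖)) * ‖Px - p‖ := by
        calc ‖Px - p‖ * ‖Px - p‖ = ‖Px - p‖ ^ 2 := by ring
          _ ≤ η * (‖x - (p + η • A p)‖ * (b * ‖Px - p‖)) := h3
          _ ≤ η * (((1 + b) * ‖x‖) * (b * ‖Px - p‖)) := by gcongr
          _ = _ := by ring
      exact le_of_mul_le_mul_right h9 h8
  -- the exact identity
  have hid : ⟪u, y⟫_ℝ - ⟪Px, y⟫_ℝ - η * (⟪A Px, y⟫_ℝ + ⟪A Py, x⟫_ℝ)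
      = η * ⟪A (p - Px), y⟫_ℝ - η ^ 2 * ⟪A p, A Py⟫_ℝ := by
    have h1 := hxu Py hPyK
    rw [← hpu', inner_add_right, inner_smul_right, inner_sub_left, inner_sub_left, inner_add_left,
      inner_add_left, inner_smul_left, inner_smul_left, hort' p hp Py hPyK, hort p hp Py hPyK,
      hxP Py hPyK] at h1
    simp only [conj_trivial, mul_zero, add_zero, zero_add] at h1
    rw [← hpu', inner_add_left, inner_smul_left, map_sub, inner_sub_left, hyP p hp, hyP Px hPxK,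
      real_inner_comm x (A Py)]
    simp only [conj_trivial]
    linarith
  rw [hid]
  have h1 : |⟪A (p - Px), y⟫_ℝ| ≤ b * (η * b * ((1 + b) * ‖x‖)) * ‖y‖ := by
    refine (abs_real_inner_le_norm _ _).trans ?_
    have : ‖A (p - Px)‖ ≤ b * (η * b * ((1 + b) * ‖x‖)) := by
      refine (hAn _).trans ?_
      rw [norm_sub_rev]
      gcongr
    gcongr
  have hPyn : ‖Py‖ ≤ ‖y‖ := Submodule.norm_starProjection_apply_le _ _
  have h2 : |⟪A p, A Py⟫_ℝ| ≤ (b * ‖x‖) * (b * ‖y‖) := by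
    refine (abs_real_inner_le_norm _ _).trans ?_
    have e1 : ‖A p‖ ≤ b * ‖x‖ := (hAn _).trans (by gcongr)
    have e2 : ‖A Py‖ ≤ b * ‖y‖ := (hAn _).trans (by gcongr)
    gcongr
  calc |η * ⟪A (p - Px), y⟫_ℝ - η ^ 2 * ⟪A p, A Py⟫_ℝ|
      ≤ |η * ⟪A (p - Px), y⟫_ℝ| + |η ^ 2 * ⟪A p, A Py⟫_ℝ| := abs_sub _ _
    _ = η * |⟪A (p - Px), y⟫_ℝ| + η ^ 2 * |⟪A p, A Py⟫_ℝ| := by
        rw [abs_mul, abs_mul, abs_of_pos hη0, abs_of_pos (by positivity : (0:ℝ) < η ^ 2)]
    _ ≤ η * (b * (η * b * ((1 + b) * ‖x‖)) * ‖y‖) + η ^ 2 * ((b * ‖x‖) * (b * ‖y‖)) := by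
        gcongr
    _ = _ := by ring

theorem perturb {ι κ : Type*} [Fintype ι] [Fintype κ] (K : Submodule ℝ E)
    (T : ι → E →ₗ[ℝ] E →ₗ[ℝ] ℝ) (hsym : ∀ i x y, T i x y = T i y x)
    (hK : ∀ i, ∀ x ∈ K, ∀ y ∈ K, T i x y = 0) (hK' : ∀ i, ∀ x ∈ Kᗮ, ∀ y ∈ Kᗮ, T i x y = 0)
    (W : κ → Submodule ℝ E)
    (hns : ∀ x y : E, ⟪K.starProjection x, y⟫_ℝ = 0 → (∀ i, T i x y = 0) →
      (∀ j, ⟪(W j).starProjection x, y⟫_ℝ = 0) → x = 0 ∨ y = 0) :
    ∃ V : ι → Submodule ℝ E, ∀ x y : E, ⟪K.starProjection x, y⟫_ℝ = 0 →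
      (∀ i, ⟪(V i).starProjection x, y⟫_ℝ = 0) →
      (∀ j, ⟪(W j).starProjection x, y⟫_ℝ = 0) → x = 0 ∨ y = 0 := by
  have : ProperSpace E := FiniteDimensional.proper_real E
  -- the linear maps
  have hA : ∀ i, ∃ A : E →ₗ[ℝ] E, ∀ x y, ⟪A x, y⟫_ℝ = T i x y := by
    intro i
    refine ⟨{ toFun := fun x => (InnerProductSpace.toDual ℝ E).symm
                (LinearMap.toContinuousLinearMap (T i x))
              map_add' := fun x y => by simp
              map_smul' := fun c x => by simp }, fun x y => ?_⟩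
    simp
  choose A hA using hA
  have hAK : ∀ i, ∀ x ∈ K, A i x ∈ Kᗮ := by
    intro i x hx y hy
    rw [real_inner_comm, hA, hK i x hx y hy]
  choose C hC0 hC using fun i => graph_bound K (A i) (hAK i)
  have hT : ∀ i x y, T i x y = ⟪A i (K.starProjection x), y⟫_ℝ + ⟪A i (K.starProjection y), x⟫_ℝ := by
    intro i x y
    have hx : x - K.starProjection x ∈ Kᗮ := Submodule.sub_starProjection_mem_orthogonal x
    have hy : y - K.starProjection y ∈ Kᗮ := Submodule.sub_starProjection_mem_orthogonal y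
    have hpx : K.starProjection x ∈ K := Submodule.starProjection_apply_mem _ _
    have hpy : K.starProjection y ∈ K := Submodule.starProjection_apply_mem _ _
    have h1 := hK' i _ hx _ hy
    have h2 := hK i _ hpx _ hpy
    rw [map_sub, map_sub, LinearMap.sub_apply, LinearMap.sub_apply, h2] at h1
    rw [hA, hA, hsym i (K.starProjection y) x]
    linarith
  -- the constant
  set S : Set (E × E) := (Metric.sphere (0 : E) 1) ×ˢ (Metric.sphere (0 : E) 1) with hS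
  have hScomp : IsCompact S := (isCompact_sphere _ _).prod (isCompact_sphere _ _)
  set g : E × E → ℝ := fun p => |⟪K.starProjection p.1, p.2⟫_ℝ| + ∑ i, |T i p.1 p.2|
    + ∑ j, |⟪(W j).starProjection p.1, p.2⟫_ℝ| with hg
  have hTc : ∀ i, Continuous (fun p : E × E => T i p.1 p.2) := by
    intro i
    have h1 : (fun p : E × E => T i p.1 p.2)
        = fun p => ⟪(LinearMap.toContinuousLinearMap (A i)) p.1, p.2⟫_ℝ := by
      funext p
      rw [← hA]; rfl
    rw [h1]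
    fun_prop
  have hgc : Continuous g := by
    apply Continuous.add
    · apply Continuous.add
      · fun_prop
      · exact continuous_finsetSum _ (fun i _ => (hTc i).abs)
    · exact continuous_finsetSum _ (fun j _ => by fun_prop)
  have hex : ∃ c : ℝ, 0 < c ∧ ∀ p ∈ S, c ≤ g p := by
    rcases S.eq_empty_or_nonempty with h | h
    · exact ⟨1, one_pos, fun p hp => by rw [h] at hp; exact absurd hp (Set.notMem_empty _)⟩
    · obtain ⟨p, hp, hmin⟩ := hScomp.exists_isMinOn h hgc.continuousOn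
      refine ⟨g p, ?_, fun q hq => hmin hq⟩
      by_contra hle
      have hge : ∀ q : E × E, 0 ≤ |⟪K.starProjection q.1, q.2⟫_ℝ| ∧ 0 ≤ ∑ i, |T i q.1 q.2|
        ∧ 0 ≤ ∑ j, |⟪(W j).starProjection q.1, q.2⟫_ℝ| := fun q : E × E =>
        ⟨abs_nonneg _, Finset.sum_nonneg (fun _ _ => abs_nonneg _),
          Finset.sum_nonneg (fun _ _ => abs_nonneg _)⟩
      obtain ⟨g1, g2, g3⟩ := hge p
      have hsum : g p = |⟪K.starProjection p.1, p.2⟫_ℝ| + ∑ i, |T i p.1 p.2|
        + ∑ j, |⟪(W j).starProjection p.1, p.2⟫_ℝ| := rfl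
      have e1 : |⟪K.starProjection p.1, p.2⟫_ℝ| = 0 := by linarith
      have e2 : ∑ i, |T i p.1 p.2| = 0 := by linarith
      have e3 : ∑ j, |⟪(W j).starProjection p.1, p.2⟫_ℝ| = 0 := by linarith
      rw [Finset.sum_eq_zero_iff_of_nonneg (fun _ _ => abs_nonneg _)] at e2 e3
      have h4 := hns p.1 p.2 (abs_eq_zero.mp e1)
        (fun i => abs_eq_zero.mp (e2 i (Finset.mem_univ _)))
        (fun j => abs_eq_zero.mp (e3 j (Finset.mem_univ _)))
      obtain ⟨hp1, hp2⟩ := hp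
      simp only [mem_sphere_iff_norm, sub_zero] at hp1 hp2
      rcases h4 with h4 | h4
      · rw [h4] at hp1; simp at hp1
      · rw [h4] at hp2; simp at hp2
  obtain ⟨c, hc0, hc⟩ := hex
  have hCs : 0 ≤ ∑ i, C i := Finset.sum_nonneg (fun i _ => hC0 i)
  set η : ℝ := min 1 (c / (2 * (∑ i, C i + 1))) with hη
  have hη0 : 0 < η := by positivity
  have hη1 : η ≤ 1 := min_le_left _ _
  have hη2 : η * ∑ i, C i < c := by
    have h1 : η ≤ c / (2 * (∑ i, C i + 1)) := min_le_right _ _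
    have h2 : η * (2 * (∑ i, C i + 1)) ≤ c := by
      rwa [le_div_iff₀ (by positivity)] at h1
    nlinarith
  refine ⟨fun i => graphOver K (A i) η, fun x y h1 h2 h3 => ?_⟩
  by_contra hxy
  push Not at hxy
  obtain ⟨hx, hy⟩ := hxy
  have hxn : 0 < ‖x‖ := norm_pos_iff.mpr hx
  have hyn : 0 < ‖y‖ := norm_pos_iff.mpr hy
  have h4 : ∀ i, |T i x y| ≤ C i * η * (‖x‖ * ‖y‖) := by
    intro i
    have h5 := hC i η hη0 hη1 x y
    rw [h2 i, h1, ← hT] at h5
    have h6 : |(0:ℝ) - 0 - η * T i x y| = η * |T i x y| := by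
      rw [sub_zero, zero_sub, abs_neg, abs_mul, abs_of_pos hη0]
    rw [h6] at h5
    have h7 : η * |T i x y| ≤ η * (C i * η * (‖x‖ * ‖y‖)) := by
      calc η * |T i x y| ≤ C i * η ^ 2 * ‖x‖ * ‖y‖ := h5
        _ = _ := by ring
    exact le_of_mul_le_mul_left h7 hη0
  have h5 := hc (‖x‖⁻¹ • x, ‖y‖⁻¹ • y) ⟨by simp [norm_smul, hx], by simp [norm_smul, hy]⟩
  have h6 : g (‖x‖⁻¹ • x, ‖y‖⁻¹ • y) = (‖x‖ * ‖y‖)⁻¹ * ∑ i, |T i x y| := by
    have e1 : ⟪K.starProjection (‖x‖⁻¹ • x), ‖y‖⁻¹ • y⟫_ℝ = 0 := by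
      rw [map_smul, inner_smul_left, inner_smul_right, h1]; simp
    have e2 : ∀ j, ⟪(W j).starProjection (‖x‖⁻¹ • x), ‖y‖⁻¹ • y⟫_ℝ = 0 := by
      intro j
      rw [map_smul, inner_smul_left, inner_smul_right, h3]; simp
    have e3 : ∀ i, |T i (‖x‖⁻¹ • x) (‖y‖⁻¹ • y)| = (‖x‖ * ‖y‖)⁻¹ * |T i x y| := by
      intro i
      rw [map_smul, map_smul, LinearMap.smul_apply, smul_eq_mul, smul_eq_mul, abs_mul, abs_mul,
        abs_inv, abs_inv, abs_norm, abs_norm, mul_inv]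
      ring
    simp only [hg, e1, e2, e3, abs_zero, Finset.sum_const_zero, add_zero, zero_add, Finset.mul_sum]
  rw [h6] at h5
  have h7 : ∑ i, |T i x y| ≤ (∑ i, C i) * η * (‖x‖ * ‖y‖) := by
    rw [Finset.sum_mul, Finset.sum_mul]
    exact Finset.sum_le_sum (fun i _ => h4 i)
  have h8 : (‖x‖ * ‖y‖)⁻¹ * ∑ i, |T i x y| ≤ (∑ i, C i) * η := by
    rw [inv_mul_le_iff₀ (by positivity)]
    linarith
  linarith [mul_comm η (∑ i, C i)]

/-- The projection onto the span of two orthogonal unit vectors. -/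
theorem rank_two (a b : E) (ha : ⟪a, a⟫_ℝ = 1) (hb : ⟪b, b⟫_ℝ = 1) (hab : ⟪a, b⟫_ℝ = 0) (x y : E) :
    ⟪(Submodule.span ℝ {a, b}).starProjection x, y⟫_ℝ = ⟪x, a⟫_ℝ * ⟪y, a⟫_ℝ + ⟪x, b⟫_ℝ * ⟪y, b⟫_ℝ := by
  have hba : ⟪b, a⟫_ℝ = 0 := by rw [real_inner_comm]; exact hab
  have h1 : (Submodule.span ℝ {a, b}).starProjection x = ⟪x, a⟫_ℝ • a + ⟪x, b⟫_ℝ • b := by
    apply Submodule.eq_starProjection_of_mem_of_inner_eq_zero
    · exact Submodule.mem_span_pair.mpr ⟨_, _, rfl⟩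
    · intro w hw
      obtain ⟨r, s, rfl⟩ := Submodule.mem_span_pair.mp hw
      rw [inner_sub_left, inner_add_left, inner_add_right, inner_add_right, inner_add_right]
      simp only [inner_smul_left, inner_smul_right, ha, hb, hab, hba, conj_trivial]
      ring
  rw [h1, inner_add_left, inner_smul_left, inner_smul_left, real_inner_comm a y,
    real_inner_comm b y]
  simp only [conj_trivial]

end inner

end Pool.Agent.Lib_helper96.OD
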