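import Mathlib

/-!
# Factorisations of `X (X^N - 1)`, `N = 2h-2`, `h` odd

For a set `I` of `h` roots of unity of order `N = 2h-2`, `h` odd, the polynomials
`A = ∏_{I} (X - ζ)` and `B = X ∏_{S \ I} (X - ζ)` have a common even index `j` with
`A_j B_j ≠ 0`.
-/

open scoped ComplexConjugate
open Polynomial

namespace Pool.Agent.Lib_helper96.OD

/-- monic polynomial with the given simple roots -/
noncomputable def rp (J : Finset ℂ) : ℂ[X] := ∏ ζ ∈ J, (X - C ζ)

lemma rp_monic (J : Finset ℂ) : (rp J).Monic :=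
  monic_prod_of_monic _ _ (fun _ _ => monic_X_sub_C _)

lemma rp_natDegree (J : Finset ℂ) : (rp J).natDegree = J.card := by
  unfold rp
  rw [natDegree_prod_of_monic _ _ (fun _ _ => monic_X_sub_C _)]
  simp

lemma rp_insert (J : Finset ℂ) (ζ : ℂ) (h : ζ ∉ J) : rp (insert ζ J) = (X - C ζ) * rp J := by
  unfold rp
  rw [Finset.prod_insert h]

lemma rp_reflect_aux (J : Finset ℂ) (hJ : ∀ ζ ∈ J, ζ * conj ζ = 1) :
    ∃ κ : ℂ, reflect J.card ((rp J).map (starRingEnd ℂ)) = C κ * rp J := by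
  classical
  induction J using Finset.induction_on with
  | empty => exact ⟨1, by simp [rp]⟩
  | insert ζ J h ih =>
    obtain ⟨κ, hκ⟩ := ih (fun ξ hξ => hJ ξ (Finset.mem_insert_of_mem hξ))
    refine ⟨-conj ζ * κ, ?_⟩
    rw [Finset.card_insert_of_notMem h, rp_insert J ζ h, Polynomial.map_mul, add_comm J.card 1,
      reflect_mul _ _ (F := 1) (G := J.card)]
    · rw [hκ]
      have h1 : reflect 1 ((X - C ζ).map (starRingEnd ℂ)) = C (-conj ζ) * (X - C ζ) := by
        rw [Polynomial.map_sub, map_X, map_C, reflect_sub, reflect_one_X, reflect_C, pow_one]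
        have h2 : C (-conj ζ) * (X - C ζ) = C (ζ * conj ζ) - C (conj ζ) * X := by
          rw [C_neg, C_mul]; ring
        rw [h2, hJ ζ (Finset.mem_insert_self _ _), C_1]
      rw [h1, C_mul]
      ring
    · rw [Polynomial.map_sub, map_X, map_C]
      exact natDegree_X_sub_C_le _
    · rw [natDegree_map]
      exact (rp_natDegree J).le

/-- self-reciprocity -/
lemma rp_reflect (J : Finset ℂ) (hJ : ∀ ζ ∈ J, ζ * conj ζ = 1) :
    ∃ κ : ℂ, κ * conj κ = 1 ∧ κ = conj ((rp J).coeff 0) ∧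
      reflect J.card ((rp J).map (starRingEnd ℂ)) = C κ * rp J ∧
      ∀ n ≤ J.card, conj ((rp J).coeff (J.card - n)) = κ * (rp J).coeff n := by
  obtain ⟨κ, hκ⟩ := rp_reflect_aux J hJ
  have h1 : ∀ n ≤ J.card, conj ((rp J).coeff (J.card - n)) = κ * (rp J).coeff n := by
    intro n hn
    have := congrArg (fun p => p.coeff n) hκ
    simp only [coeff_reflect, coeff_C_mul, revAt_le hn, coeff_map] at this
    exact this
  have hlc : (rp J).coeff J.card = 1 := by
    have := (rp_monic J).coeff_natDegree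
    rwa [rp_natDegree] at this
  have h2 : κ = conj ((rp J).coeff 0) := by
    have := h1 J.card le_rfl
    rw [Nat.sub_self, hlc, mul_one] at this
    exact this.symm
  have h3 : κ * conj κ = 1 := by
    have := h1 0 (Nat.zero_le _)
    rw [Nat.sub_zero, hlc, map_one] at this
    rw [h2, Complex.conj_conj, ← h2]
    exact this.symm
  exact ⟨κ, h3, h2, hκ, h1⟩

lemma coeff_ne_symm (J : Finset ℂ) (hJ : ∀ ζ ∈ J, ζ * conj ζ = 1) (n : ℕ) (hn : n ≤ J.card)
    (h : (rp J).coeff n ≠ 0) : (rp J).coeff (J.card - n) ≠ 0 := by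
  obtain ⟨κ, h1, -, -, h4⟩ := rp_reflect J hJ
  intro h0
  have h5 := h4 n hn
  rw [h0, map_zero] at h5
  have hκ : κ ≠ 0 := by
    intro hκ; rw [hκ, zero_mul] at h1; exact zero_ne_one h1
  exact (mul_ne_zero hκ h) h5.symm

/-- sum of signs -/
lemma sum_signs (I : Finset ℂ) (g : ℂ → ℂ) (hg : ∀ ζ ∈ I, g ζ = 1 ∨ g ζ = -1) :
    ∃ m : ℕ, ∑ ζ ∈ I, g ζ = (I.card : ℂ) - 2 * m := by
  classical
  induction I using Finset.induction_on with
  | empty => exact ⟨0, by simp⟩
  | insert ζ J h ih =>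
    obtain ⟨m, hm⟩ := ih (fun ξ hξ => hg ξ (Finset.mem_insert_of_mem hξ))
    rw [Finset.sum_insert h, hm, Finset.card_insert_of_notMem h]
    rcases hg ζ (Finset.mem_insert_self _ _) with h1 | h1
    · exact ⟨m, by rw [h1]; push_cast; ring⟩
    · exact ⟨m + 1, by rw [h1]; push_cast; ring⟩

lemma sum_signs_ne (I : Finset ℂ) (hI : Odd I.card) (g : ℂ → ℂ)
    (hg : ∀ ζ ∈ I, g ζ = 1 ∨ g ζ = -1) : ∑ ζ ∈ I, g ζ ≠ 0 := by
  obtain ⟨m, hm⟩ := sum_signs I g hg
  rw [hm]
  intro h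
  have h1 : (I.card : ℂ) = ((2 * m : ℕ) : ℂ) := by push_cast; linear_combination h
  have h2 : I.card = 2 * m := by exact_mod_cast h1
  rw [h2] at hI
  exact (Nat.not_odd_iff_even.mpr (even_two_mul m)) hI

section main
variable (N : ℕ) (S : Finset ℂ) (hS : rp S = X ^ N - 1) (hmem : ∀ ζ ∈ S, ζ ^ N = 1)

include hS hmem in
lemma deriv_mul (I : Finset ℂ) (hI : I ⊆ S) :
    derivative (rp I) * (X * rp (S \ I))
      = ∑ ζ ∈ I, X * ∑ i ∈ Finset.range N, X ^ i * (C ζ) ^ (N - 1 - i) := by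
  classical
  have h1 : derivative (rp I) = ∑ ζ ∈ I, rp (I.erase ζ) := by
    unfold rp
    rw [derivative_prod_finset]
    refine Finset.sum_congr rfl (fun ζ _ => ?_)
    simp
  rw [h1, Finset.sum_mul]
  refine Finset.sum_congr rfl (fun ζ hζ => ?_)
  have h2 : (rp (I.erase ζ) * rp (S \ I)) * (X - C ζ) = X ^ N - 1 := by
    rw [← hS]
    have h3 : rp I = (X - C ζ) * rp (I.erase ζ) := by
      conv_lhs => rw [← Finset.insert_erase hζ]
      rw [rp_insert _ _ (Finset.notMem_erase ζ I)]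
    have h4 : rp S = rp I * rp (S \ I) := by
      unfold rp
      rw [mul_comm]
      exact (Finset.prod_sdiff hI).symm
    rw [h4, h3]; ring
  have h5 : (∑ i ∈ Finset.range N, (X : ℂ[X]) ^ i * (C ζ) ^ (N - 1 - i)) * (X - C ζ) = X ^ N - 1 := by
    rw [(Commute.all (X : ℂ[X]) (C ζ)).geom_sum₂_mul, ← C_pow, hmem ζ (hI hζ), C_1]
  have h6 : rp (I.erase ζ) * rp (S \ I) = ∑ i ∈ Finset.range N, X ^ i * (C ζ) ^ (N - 1 - i) :=
    mul_right_cancel₀ (X_sub_C_ne_zero ζ) (h2.trans h5.symm)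
  rw [← h6]; ring

end main

/-- the common even index -/
theorem exists_even (h : ℕ) (hodd : Odd h) (h3 : 3 ≤ h) (S : Finset ℂ)
    (hS : rp S = X ^ (2 * (h - 1)) - 1) (hmem : ∀ ζ ∈ S, ζ ^ (2 * (h - 1)) = 1)
    (hcard : S.card = 2 * (h - 1)) (I : Finset ℂ) (hI : I ⊆ S) (hIc : I.card = h) :
    ∃ j, Even j ∧ 2 ≤ j ∧ j ≤ h - 1 ∧ (rp I).coeff j ≠ 0 ∧ (X * rp (S \ I)).coeff j ≠ 0 := by
  classical
  have hN : 2 * (h - 1) ≠ 0 := by omega
  have hunit : ∀ ζ ∈ S, ζ * conj ζ = 1 := by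
    intro ζ hζ
    have h1 : ‖ζ‖ = 1 := Complex.norm_eq_one_of_pow_eq_one (hmem ζ hζ) hN
    rw [Complex.mul_conj, Complex.normSq_eq_norm_sq, h1]; simp
  have hcB : (S \ I).card = h - 2 := by
    rw [Finset.card_sdiff_of_subset hI, hcard, hIc]; omega
  obtain ⟨κ, hκ1, -, hκ2, -⟩ := rp_reflect (S \ I)
    (fun ζ hζ => hunit ζ (Finset.mem_sdiff.mp hζ).1)
  have hκ0 : κ ≠ 0 := by
    intro hκ; rw [hκ, zero_mul] at hκ1; exact zero_ne_one hκ1
  rw [hcB] at hκ2
  have hBs : reflect (h - 1) ((X * rp (S \ I)).map (starRingEnd ℂ)) = C κ * rp (S \ I) := by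
    rw [Polynomial.map_mul, map_X, show h - 1 = 1 + (h - 2) by omega,
      reflect_mul _ _ natDegree_X_le (by rw [natDegree_map, rp_natDegree, hcB]), reflect_one_X,
      one_mul, hκ2]
  have hprod : (X * derivative (rp I)) * reflect (h - 1) ((X * rp (S \ I)).map (starRingEnd ℂ))
      = C κ * ∑ ζ ∈ I, X * ∑ i ∈ Finset.range (2 * (h - 1)), X ^ i * (C ζ) ^ (2 * (h - 1) - 1 - i) := by
    rw [hBs, ← deriv_mul (2 * (h - 1)) S hS hmem I hI]; ring
  have hco : ((X * derivative (rp I)) * reflect (h - 1) ((X * rp (S \ I)).map (starRingEnd ℂ))).coeff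
      (h - 1) = κ * ∑ ζ ∈ I, ζ ^ (h - 1) := by
    rw [hprod, coeff_C_mul, finsetSum_coeff]
    congr 1
    refine Finset.sum_congr rfl (fun ζ _ => ?_)
    rw [show h - 1 = (h - 2) + 1 by omega, coeff_X_mul, finsetSum_coeff,
      Finset.sum_eq_single (h - 2)]
    · rw [← C_pow, mul_comm, coeff_C_mul_X_pow, if_pos rfl]
      congr 1
      omega
    · intro b _ hb
      rw [← C_pow, mul_comm, coeff_C_mul_X_pow, if_neg (Ne.symm hb)]
    · intro hb
      exact absurd (Finset.mem_range.mpr (by omega)) hb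
  have hne : ((X * derivative (rp I)) * reflect (h - 1)
      ((X * rp (S \ I)).map (starRingEnd ℂ))).coeff (h - 1) ≠ 0 := by
    rw [hco]
    refine mul_ne_zero hκ0 (sum_signs_ne I (by rw [hIc]; exact hodd) (fun ζ => ζ ^ (h - 1))
      (fun ζ hζ => ?_))
    have h1 := hmem ζ (hI hζ)
    rw [mul_comm, pow_mul] at h1
    exact sq_eq_one_iff.mp h1
  rw [coeff_mul] at hne
  obtain ⟨⟨j, k⟩, hjk, hterm⟩ := Finset.exists_ne_zero_of_sum_ne_zero hne
  have hjk : j + k = h - 1 := by simpa using hjk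
  simp only at hterm
  have hA := left_ne_zero_of_mul hterm
  have hB := right_ne_zero_of_mul hterm
  rw [coeff_reflect, revAt_le (by omega), coeff_map] at hB
  have hB' : (X * rp (S \ I)).coeff j ≠ 0 := by
    intro h0
    apply hB
    rw [show h - 1 - k = j by omega, h0, map_zero]
  have hj1 : 1 ≤ j := by
    rcases Nat.eq_zero_or_pos j with h0 | h0
    · exfalso
      apply hA
      rw [h0, coeff_X_mul_zero]
    · exact h0
  have hA' : (rp I).coeff j ≠ 0 := by
    intro h0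
    apply hA
    rw [show j = (j - 1) + 1 by omega, coeff_X_mul, coeff_derivative, show j - 1 + 1 = j by omega,
      h0, zero_mul]
  rcases Nat.even_or_odd j with hj | hj
  · exact ⟨j, hj, by obtain ⟨r, hr⟩ := hj; omega, by omega, hA', hB'⟩
  · refine ⟨h - j, ?_, ?_, by omega, ?_, ?_⟩
    · exact Nat.Odd.sub_odd hodd hj
    · have : Even (h - j) := Nat.Odd.sub_odd hodd hj
      obtain ⟨r, hr⟩ := this
      omega
    · have := coeff_ne_symm I (fun ζ hζ => hunit ζ (hI hζ)) j (by omega) hA'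
      rwa [hIc] at this
    · rw [show j = (j - 1) + 1 by omega, coeff_X_mul] at hB'
      have := coeff_ne_symm (S \ I) (fun ζ hζ => hunit ζ (Finset.mem_sdiff.mp hζ).1) (j - 1)
        (by omega) hB'
      rw [hcB] at this
      rw [show h - j = (h - 2 - (j - 1)) + 1 by omega, coeff_X_mul]
      exact this

end Pool.Agent.Lib_helper96.OD
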