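import Mathlib
import Pool.Agent.Lib_helper96.OD.Roots
import Pool.Agent.Lib_helper96.PhaseRetrieval

/-!
# Choice of the parameters
-/

open scoped ComplexConjugate
open Polynomial

namespace Pool.Agent.Lib_helper96.OD

/-- the weighted sum over the even indices, as a polynomial in the weight -/
noncomputable def phiPoly (h : ℕ) (A B : ℂ[X]) : ℂ[X] :=
  ∑ j ∈ (Finset.range (h + 1)).filter Even, C (A.coeff j * conj (B.coeff j)) * X ^ j

lemma phiPoly_coeff (h : ℕ) (A B : ℂ[X]) (j : ℕ) (hj : Even j) (hjh : j ≤ h) :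
    (phiPoly h A B).coeff j = A.coeff j * conj (B.coeff j) := by
  unfold phiPoly
  rw [finsetSum_coeff, Finset.sum_eq_single j]
  · rw [coeff_C_mul_X_pow, if_pos rfl]
  · intro b _ hb
    rw [coeff_C_mul_X_pow, if_neg (Ne.symm hb)]
  · intro hb
    exact absurd (Finset.mem_filter.mpr ⟨Finset.mem_range.mpr (by omega), hj⟩) hb

lemma phiPoly_eval (h : ℕ) (A B : ℂ[X]) (s : ℂ) :
    (phiPoly h A B).eval s
      = ∑ j ∈ (Finset.range (h + 1)).filter Even, s ^ j * (A.coeff j * conj (B.coeff j)) := by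
  unfold phiPoly
  rw [eval_finsetSum]
  refine Finset.sum_congr rfl (fun j _ => ?_)
  rw [eval_mul, eval_C, eval_pow, eval_X, mul_comm]

theorem exists_choice (h : ℕ) (hodd : Odd h) (h3 : 3 ≤ h) (S : Finset ℂ)
    (hS : rp S = X ^ (2 * (h - 1)) - 1) (hmem : ∀ ζ ∈ S, ζ ^ (2 * (h - 1)) = 1)
    (hcard : S.card = 2 * (h - 1)) :
    ∃ (s : ℝ) (θ : ℂ), 0 < s ∧ θ * conj θ = 1 ∧ θ ^ (2 * (h - 1)) ≠ 1 ∧
      ∀ I, I ⊆ S → I.card = h →
        (conj θ * (conj ((rp I).coeff 0) * (phiPoly h (rp I) (X * rp (S \ I))).eval (s : ℂ))).re ≠ 0 := by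
  classical
  set T := S.powerset.filter (fun I => I.card = h) with hT
  have hTmem : ∀ I, I ∈ T ↔ I ⊆ S ∧ I.card = h := by
    intro I; rw [hT, Finset.mem_filter, Finset.mem_powerset]
  have hN : 2 * (h - 1) ≠ 0 := by omega
  have hunit : ∀ ζ ∈ S, ζ * conj ζ = 1 := by
    intro ζ hζ
    have h1 : ‖ζ‖ = 1 := Complex.norm_eq_one_of_pow_eq_one (hmem ζ hζ) hN
    rw [Complex.mul_conj, Complex.normSq_eq_norm_sq, h1]; simp
  have hΦ : ∀ I ∈ T, phiPoly h (rp I) (X * rp (S \ I)) ≠ 0 := by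
    intro I hI h0
    rw [hTmem] at hI
    obtain ⟨j, hj, hj2, hjh, hA, hB⟩ := exists_even h hodd h3 S hS hmem hcard I hI.1 hI.2
    have h1 := phiPoly_coeff h (rp I) (X * rp (S \ I)) j hj (by omega)
    rw [h0, coeff_zero] at h1
    exact (mul_ne_zero hA ((_root_.map_ne_zero (starRingEnd ℂ)).mpr hB)) h1.symm
  have hF : (∏ I ∈ T, phiPoly h (rp I) (X * rp (S \ I))) ≠ 0 := Finset.prod_ne_zero_iff.mpr hΦ
  have hs : ∃ s : ℝ, 0 < s ∧ (∏ I ∈ T, phiPoly h (rp I) (X * rp (S \ I))).eval (s : ℂ) ≠ 0 := by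
    by_contra hcon
    push Not at hcon
    apply hF
    apply Polynomial.eq_zero_of_infinite_isRoot
    apply Set.infinite_of_injective_forall_mem (f := fun n : ℕ => (((n : ℝ) + 1 : ℝ) : ℂ))
    · intro a b hab
      simp only [Complex.ofReal_inj, add_left_inj, Nat.cast_inj] at hab
      exact hab
    · intro n
      exact hcon _ (by positivity)
  obtain ⟨s, hs0, hs⟩ := hs
  rw [eval_prod, Finset.prod_ne_zero_iff] at hs
  set z : Finset ℂ → ℂ := fun I => conj ((rp I).coeff 0) *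
    (phiPoly h (rp I) (X * rp (S \ I))).eval (s : ℂ) with hz
  have hz0 : ∀ I ∈ T, z I ≠ 0 := by
    intro I hI
    refine mul_ne_zero ?_ (hs I hI)
    rw [hTmem] at hI
    obtain ⟨κ, hκ1, hκ2, -, -⟩ := rp_reflect I (fun ζ hζ => hunit ζ (hI.1 hζ))
    rw [← hκ2]
    intro hκ
    rw [hκ, zero_mul] at hκ1
    exact zero_ne_one hκ1
  have hG : (∏ I ∈ T, (C (conj (z I)) * X ^ 2 + C (z I))) * (X ^ (2 * (h - 1)) - 1) ≠ 0 := by
    refine mul_ne_zero (Finset.prod_ne_zero_iff.mpr (fun I hI h0 => ?_)) ?_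
    · have := congrArg (fun p => p.coeff 0) h0
      simp [coeff_X_pow] at this
      exact hz0 I hI this
    · rw [← hS]; exact (rp_monic S).ne_zero
  have hθ : ∃ θ : ℂ, θ * conj θ = 1 ∧
      ((∏ I ∈ T, (C (conj (z I)) * X ^ 2 + C (z I))) * (X ^ (2 * (h - 1)) - 1)).eval θ ≠ 0 := by
    by_contra hcon
    push Not at hcon
    apply hG
    apply Polynomial.eq_zero_of_infinite_isRoot
    exact Pool.Agent.Lib_helper96.PhaseRetrieval.circle_infinite.mono (fun θ hθ => hcon θ hθ)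
  obtain ⟨θ, hθ1, hθ2⟩ := hθ
  rw [eval_mul, eval_prod] at hθ2
  have h4 := Finset.prod_ne_zero_iff.mp (left_ne_zero_of_mul hθ2)
  have h5 := right_ne_zero_of_mul hθ2
  refine ⟨s, θ, hs0, hθ1, ?_, fun I hI hIc => ?_⟩
  · intro h6
    apply h5
    simp [h6]
  · have h6 := h4 I ((hTmem I).mpr ⟨hI, hIc⟩)
    simp only [eval_add, eval_mul, eval_C, eval_pow, eval_X] at h6
    intro h7
    apply h6
    change (conj θ * z I).re = 0 at h7
    have h8 : conj θ * z I + θ * conj (z I) = 0 := by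
      have := Complex.add_conj (conj θ * z I)
      rw [h7, map_mul, Complex.conj_conj] at this
      rw [this]; simp
    linear_combination θ * h8 - z I * hθ1

end Pool.Agent.Lib_helper96.OD
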