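import Mathlib
import Pool.Agent.Lib_helper96.OD.Choice

/-!
# The limit system is nonsingular
-/

open scoped ComplexConjugate
open Polynomial

namespace Pool.Agent.Lib_helper96.OD

lemma factor (P Q : ℂ[X]) (S' : Finset ℂ) (c : ℂ) (hc : c ≠ 0) (hPQ : P * Q = C c * rp S') :
    ∃ I, I ⊆ S' ∧ P = C P.leadingCoeff * rp I ∧ Q = C Q.leadingCoeff * rp (S' \ I) := by
  classical
  have hS'0 : rp S' ≠ 0 := (rp_monic S').ne_zero
  have hne : P * Q ≠ 0 := by
    rw [hPQ]; exact mul_ne_zero (C_ne_zero.mpr hc) hS'0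
  have hP0 : P ≠ 0 := left_ne_zero_of_mul hne
  have hQ0 : Q ≠ 0 := right_ne_zero_of_mul hne
  have hroots : P.roots + Q.roots = S'.val := by
    rw [← roots_mul hne, hPQ, roots_C_mul _ hc]
    exact roots_prod_X_sub_C S'
  have hle : P.roots ≤ S'.val := by
    rw [← hroots]; exact Multiset.le_add_right _ _
  have hnd : P.roots.Nodup := Multiset.nodup_of_le hle S'.nodup
  set I : Finset ℂ := ⟨P.roots, hnd⟩ with hI
  have hIS : I ⊆ S' := Finset.val_le_iff.mp hle
  have hPI : P = C P.leadingCoeff * rp I := by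
    have h1 := (IsAlgClosed.splits P).eq_prod_roots
    exact h1
  have hlc : P.leadingCoeff ≠ 0 := leadingCoeff_ne_zero.mpr hP0
  have h4 : rp S' = rp I * rp (S' \ I) := by
    unfold rp
    rw [mul_comm]
    exact (Finset.prod_sdiff hIS).symm
  have h5 : rp I * (C P.leadingCoeff * Q) = rp I * (C c * rp (S' \ I)) := by
    calc rp I * (C P.leadingCoeff * Q) = (C P.leadingCoeff * rp I) * Q := by ring
      _ = P * Q := by rw [← hPI]
      _ = _ := by rw [hPQ, h4]; ring
  have h6 := mul_left_cancel₀ (rp_monic I).ne_zero h5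
  have h7 : Q = C (P.leadingCoeff⁻¹ * c) * rp (S' \ I) := by
    have : C (P.leadingCoeff⁻¹) * (C P.leadingCoeff * Q) = C (P.leadingCoeff⁻¹) * (C c * rp (S' \ I)) := by
      rw [h6]
    rw [← mul_assoc, ← C_mul, inv_mul_cancel₀ hlc, C_1, one_mul] at this
    rw [this, C_mul]; ring
  refine ⟨I, hIS, hPI, ?_⟩
  have h8 : Q.leadingCoeff = P.leadingCoeff⁻¹ * c := by
    rw [h7, leadingCoeff_mul, leadingCoeff_C, (rp_monic _).leadingCoeff, mul_one]
  rw [h8]; exact h7

lemma rp_coeff_zero_pow (J : Finset ℂ) (N : ℕ) (hN : Even N) (hJ : ∀ ζ ∈ J, ζ ^ N = 1) :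
    (rp J).coeff 0 ^ N = 1 := by
  unfold rp
  rw [coeff_zero_eq_eval_zero, eval_prod, ← Finset.prod_pow]
  apply Finset.prod_eq_one
  intro ζ hζ
  simp [hN.neg_pow, hJ ζ hζ]

theorem core_asym (h : ℕ) (h3 : 3 ≤ h) (S : Finset ℂ)
    (hS : rp S = X ^ (2 * (h - 1)) - 1) (hmem : ∀ ζ ∈ S, ζ ^ (2 * (h - 1)) = 1)
    (s : ℝ) (θ : ℂ) (hθ : θ * conj θ = 1) (hθN : θ ^ (2 * (h - 1)) ≠ 1)
    (hgood : ∀ I, I ⊆ S → I.card = h →
        (conj θ * (conj ((rp I).coeff 0) * (phiPoly h (rp I) (X * rp (S \ I))).eval (s : ℂ))).re ≠ 0)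
    (p q : ℂ[X]) (hp : p.natDegree ≤ h) (hq : q.natDegree ≤ h) (hqh : q.coeff h = 0)
    (hp0 : (p.coeff 0).im = 0) (hq0 : (q.coeff 0).im = 0)
    (hD : ∑ j ∈ (Finset.range (h + 1)).filter Even, s ^ j * (p.coeff j * conj (q.coeff j)).re = 0)
    (heven : ∀ m, Even m → m ≤ 2 * h → (p * q).coeff m = 0)
    (hoddm : ∀ m, Odd m → 3 ≤ m → m ≤ 2 * h - 3 → (p * q).coeff m = 0)
    (hone : (p * q).coeff 1 + θ ^ 2 * (conj (q.coeff (h - 1)) * p.coeff h) = 0) :
    p = 0 ∨ q = 0 := by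
  classical
  have hq' : q.natDegree ≤ h - 1 := natDegree_le_pred hq hqh
  set a0 := p.coeff h with ha0
  set b0 := q.coeff (h - 1) with hb0
  -- the shape of the product
  have hpq : p * q = C (a0 * b0) * X ^ (2 * h - 1) + C (-(θ ^ 2 * (conj b0 * a0))) * X := by
    ext m
    rw [coeff_add, coeff_C_mul_X_pow, coeff_C_mul_X]
    rcases lt_trichotomy m (2 * h - 1) with hm | hm | hm
    · rw [if_neg (by omega), zero_add]
      rcases Nat.even_or_odd m with he | ho
      · rw [heven m he (by omega), if_neg]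
        rintro rfl; exact absurd he (by decide)
      · by_cases h1 : m = 1
        · subst h1
          rw [if_pos rfl]
          linear_combination hone
        · rw [if_neg h1]
          obtain ⟨r, hr⟩ := ho
          exact hoddm m ⟨r, hr⟩ (by omega) (by omega)
    · rw [if_pos hm, if_neg (by omega), add_zero, hm, show 2 * h - 1 = h + (h - 1) by omega,
        coeff_mul_add_eq_of_natDegree_le hp hq']
    · rw [if_neg (by omega), if_neg (by omega), add_zero]
      apply coeff_eq_zero_of_natDegree_lt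
      have := natDegree_mul_le (p := p) (q := q)
      omega
  by_cases hab : a0 * b0 = 0
  · have h1 : p * q = 0 := by
      rw [hpq, hab]
      rcases mul_eq_zero.mp hab with h2 | h2
      · simp [h2]
      · simp [h2]
    exact mul_eq_zero.mp h1
  exfalso
  have ha : a0 ≠ 0 := left_ne_zero_of_mul hab
  have hb : b0 ≠ 0 := right_ne_zero_of_mul hab
  have hcb : conj b0 ≠ 0 := (_root_.map_ne_zero (starRingEnd ℂ)).mpr hb
  have hθ0 : θ ≠ 0 := by
    intro h0; rw [h0, zero_mul] at hθ; exact zero_ne_one hθ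
  have hθn : ‖θ‖ = 1 := by
    rw [Complex.mul_conj, Complex.normSq_eq_norm_sq] at hθ
    have h1 : ‖θ‖ ^ 2 = 1 := by exact_mod_cast hθ
    exact (pow_eq_one_iff_of_nonneg (norm_nonneg _) two_ne_zero).mp h1
  -- the rotation
  obtain ⟨w, hw⟩ := IsAlgClosed.exists_pow_nat_eq (θ ^ 2 * conj b0 / b0)
    (n := 2 * (h - 1)) (by omega)
  have hw1 : ‖w‖ = 1 := by
    have h1 : ‖w‖ ^ (2 * (h - 1)) = 1 := by
      rw [← norm_pow, hw, norm_div, norm_mul, norm_pow, hθn, RCLike.norm_conj]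
      field_simp [norm_ne_zero_iff.mpr hb]
    exact (pow_eq_one_iff_of_nonneg (norm_nonneg _) (by omega)).mp h1
  have hww : w * conj w = 1 := by
    rw [Complex.mul_conj, Complex.normSq_eq_norm_sq, hw1]; simp
  have hw0 : w ≠ 0 := by
    intro h0; rw [h0, zero_mul] at hww; exact zero_ne_one hww
  have hwb : w ^ (2 * (h - 1)) * b0 = θ ^ 2 * conj b0 := by
    rw [hw]; field_simp
  set P := p.comp (C w * X) with hP
  set Q := q.comp (C w * X) with hQ
  have hPc : ∀ n, P.coeff n = p.coeff n * w ^ n := fun n => comp_C_mul_X_coeff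
  have hQc : ∀ n, Q.coeff n = q.coeff n * w ^ n := fun n => comp_C_mul_X_coeff
  have hPd : P.natDegree ≤ h := by
    rw [natDegree_le_iff_coeff_eq_zero]
    intro n hn
    rw [hPc, coeff_eq_zero_of_natDegree_lt (by omega), zero_mul]
  have hQd : Q.natDegree ≤ h - 1 := by
    rw [natDegree_le_iff_coeff_eq_zero]
    intro n hn
    rw [hQc, coeff_eq_zero_of_natDegree_lt (by omega), zero_mul]
  have hPh : P.coeff h ≠ 0 := by
    rw [hPc]; exact mul_ne_zero ha (pow_ne_zero _ hw0)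
  have hQh : Q.coeff (h - 1) ≠ 0 := by
    rw [hQc]; exact mul_ne_zero hb (pow_ne_zero _ hw0)
  have hPdeg : P.natDegree = h := le_antisymm hPd (le_natDegree_of_ne_zero hPh)
  have hQdeg : Q.natDegree = h - 1 := le_antisymm hQd (le_natDegree_of_ne_zero hQh)
  have h0S : (0 : ℂ) ∉ S := by
    intro h0
    have := hmem 0 h0
    rw [zero_pow (by omega)] at this
    exact zero_ne_one this
  have hPQ : P * Q = C (a0 * b0 * w ^ (2 * h - 1)) * rp (insert 0 S) := by
    rw [hP, hQ, ← mul_comp, hpq, rp_insert _ _ h0S, hS]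
    simp only [add_comp, mul_comp, C_comp, pow_comp, X_comp]
    have e1 : w ^ (2 * h - 1) = w ^ (2 * (h - 1)) * w := by
      rw [← pow_succ]; congr 1; omega
    have e2 : a0 * b0 * w ^ (2 * h - 1) = θ ^ 2 * (conj b0 * a0) * w := by
      rw [e1]; linear_combination (a0 * w) * hwb
    have e3 : (X : ℂ[X]) ^ (2 * h - 1) = X ^ (2 * (h - 1)) * X := by
      rw [← pow_succ]; congr 1; omega
    rw [mul_pow, ← C_pow, e3]
    have e4 : C (a0 * b0) * (C (w ^ (2 * h - 1)) * (X ^ (2 * (h - 1)) * X))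
        = C (a0 * b0 * w ^ (2 * h - 1)) * (X ^ (2 * (h - 1)) * X) := by
      rw [C_mul (a := a0 * b0) (b := w ^ (2 * h - 1))]; ring
    have e5 : C (-(θ ^ 2 * (conj b0 * a0))) * (C w * X) = - (C (a0 * b0 * w ^ (2 * h - 1)) * X) := by
      rw [e2, ← mul_assoc, ← C_mul, neg_mul, C_neg, neg_mul]
    rw [e4, e5, C_0]; ring
  have hcne : a0 * b0 * w ^ (2 * h - 1) ≠ 0 := mul_ne_zero hab (pow_ne_zero _ hw0)
  obtain ⟨I, hI, hPI, hQI⟩ := factor P Q (insert 0 S) _ hcne hPQ
  have hlP : P.leadingCoeff = a0 * w ^ h := by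
    rw [leadingCoeff, hPdeg, hPc]
  have hlQ : Q.leadingCoeff = b0 * w ^ (h - 1) := by
    rw [leadingCoeff, hQdeg, hQc]
  -- the square of the leading coefficient of Q
  have hsq : (b0 * w ^ (h - 1)) ^ 2 = (θ * ‖b0‖) ^ 2 := by
    have e1 : b0 * conj b0 = (‖b0‖ : ℂ) ^ 2 := by
      rw [Complex.mul_conj, Complex.normSq_eq_norm_sq]; push_cast; ring
    have e2 : (w ^ (h - 1)) ^ 2 = w ^ (2 * (h - 1)) := by rw [← pow_mul, mul_comm]
    rw [mul_pow, e2]
    linear_combination b0 * hwb + θ ^ 2 * e1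
  have hIcard : I.card = h := by
    have h1 := congrArg natDegree hPI
    rw [natDegree_C_mul (leadingCoeff_ne_zero.mpr (by intro h0; rw [h0] at hPh; simp at hPh)),
      rp_natDegree, hPdeg] at h1
    exact h1.symm
  by_cases h0I : (0 : ℂ) ∈ I
  · -- the root `0` belongs to `P`
    have hJ : ∀ ζ ∈ insert 0 S \ I, ζ ^ (2 * (h - 1)) = 1 := by
      intro ζ hζ
      rw [Finset.mem_sdiff, Finset.mem_insert] at hζ
      rcases hζ with ⟨h1 | h1, h2⟩
      · rw [h1] at h2; exact absurd h0I h2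
      · exact hmem ζ h1
    have h1 := rp_coeff_zero_pow _ (2 * (h - 1)) (even_two_mul _) hJ
    have h2 : Q.coeff 0 = Q.leadingCoeff * (rp (insert 0 S \ I)).coeff 0 := by
      conv_lhs => rw [hQI]
      rw [coeff_C_mul]
    have h3 : q.coeff 0 ^ (2 * (h - 1)) = (θ * ‖b0‖) ^ (2 * (h - 1)) := by
      have e1 : Q.coeff 0 = q.coeff 0 := by rw [hQc]; simp
      rw [← e1, h2, mul_pow, h1, mul_one, hlQ, pow_mul, hsq, ← pow_mul]
    obtain ⟨r, hr⟩ : ∃ r : ℝ, q.coeff 0 = r := ⟨(q.coeff 0).re, Complex.ext rfl (by simpa using hq0)⟩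
    rw [hr] at h3
    have h4 : |r| ^ (2 * (h - 1)) = ‖b0‖ ^ (2 * (h - 1)) := by
      have := congrArg norm h3
      rwa [norm_pow, norm_pow, norm_mul, hθn, one_mul, Complex.norm_real, Complex.norm_real,
        Real.norm_eq_abs, norm_norm] at this
    have h5 : ((r : ℂ)) ^ (2 * (h - 1)) = (‖b0‖ : ℂ) ^ (2 * (h - 1)) := by
      have : r ^ (2 * (h - 1)) = ‖b0‖ ^ (2 * (h - 1)) := by
        rw [← h4, pow_mul, pow_mul, sq_abs]
      exact_mod_cast this
    rw [h5, mul_pow] at h3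
    apply hθN
    have h6 : (‖b0‖ : ℂ) ^ (2 * (h - 1)) ≠ 0 :=
      pow_ne_zero _ (by exact_mod_cast norm_ne_zero_iff.mpr hb)
    exact mul_right_cancel₀ h6 (by rw [one_mul]; exact h3.symm)
  · -- the root `0` belongs to `Q`
    have hIS : I ⊆ S := by
      intro ζ hζ
      rcases Finset.mem_insert.mp (hI hζ) with h1 | h1
      · rw [h1] at hζ; exact absurd hζ h0I
      · exact h1
    have hsd : insert 0 S \ I = insert 0 (S \ I) := by
      rw [Finset.insert_sdiff_of_notMem _ h0I]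
    have hrpQ : rp (insert 0 S \ I) = X * rp (S \ I) := by
      rw [hsd, rp_insert _ _ (fun h1 => h0S (Finset.mem_sdiff.mp h1).1), C_0, sub_zero]
    rw [hrpQ, hlQ] at hQI
    rw [hlP] at hPI
    -- constant term
    obtain ⟨r, hr⟩ : ∃ r : ℝ, p.coeff 0 = r := ⟨(p.coeff 0).re, Complex.ext rfl (by simpa using hp0)⟩
    have hunit : ∀ ζ ∈ I, ζ * conj ζ = 1 := by
      intro ζ hζ
      have h1 : ‖ζ‖ = 1 := Complex.norm_eq_one_of_pow_eq_one (hmem ζ (hIS hζ)) (by omega)
      rw [Complex.mul_conj, Complex.normSq_eq_norm_sq, h1]; simp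
    obtain ⟨κ, hκ1, hκ2, -, -⟩ := rp_reflect I hunit
    have hA0 : (rp I).coeff 0 * conj ((rp I).coeff 0) = 1 := by
      rw [hκ2, Complex.conj_conj] at hκ1
      rw [mul_comm]; exact hκ1
    have hPr : (r : ℂ) = a0 * w ^ h * (rp I).coeff 0 := by
      have e1 : P.coeff 0 = p.coeff 0 := by rw [hPc]; simp
      rw [← hr, ← e1]
      conv_lhs => rw [hPI]
      rw [coeff_C_mul]
    have hlead : a0 * w ^ h = r * conj ((rp I).coeff 0) := by
      rw [hPr]; linear_combination (-(a0 * w ^ h)) * hA0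
    obtain ⟨r', hr'0, hr'⟩ : ∃ r' : ℝ, r' ≠ 0 ∧ b0 * w ^ (h - 1) = r' * θ := by
      rcases sq_eq_sq_iff_eq_or_eq_neg.mp hsq with h1 | h1
      · exact ⟨‖b0‖, norm_ne_zero_iff.mpr hb, by rw [h1]; ring⟩
      · exact ⟨-‖b0‖, neg_ne_zero.mpr (norm_ne_zero_iff.mpr hb), by rw [h1]; push_cast; ring⟩
    have hr0 : r ≠ 0 := by
      intro h0
      rw [h0] at hlead
      apply ha
      have : a0 * w ^ h = 0 := by rw [hlead]; simp
      exact (mul_eq_zero.mp this).resolve_right (pow_ne_zero _ hw0)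
    apply hgood I hIS hIcard
    have hterm : ∀ j, p.coeff j * conj (q.coeff j)
        = ((r * r' : ℝ) : ℂ) * (conj θ * (conj ((rp I).coeff 0) *
          ((rp I).coeff j * conj ((X * rp (S \ I)).coeff j)))) := by
      intro j
      have e1 : P.coeff j * conj (Q.coeff j) = p.coeff j * conj (q.coeff j) := by
        rw [hPc, hQc, map_mul, map_pow]
        have : w ^ j * conj w ^ j = 1 := by rw [← mul_pow, hww, one_pow]
        linear_combination (p.coeff j * conj (q.coeff j)) * this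
      have e2 : P.coeff j = r * conj ((rp I).coeff 0) * (rp I).coeff j := by
        conv_lhs => rw [hPI]
        rw [coeff_C_mul, hlead]
      have e3 : Q.coeff j = r' * θ * (X * rp (S \ I)).coeff j := by
        conv_lhs => rw [hQI]
        rw [coeff_C_mul, hr']
      rw [← e1, e2, e3, map_mul, map_mul, Complex.conj_ofReal]
      push_cast
      ring
    have hsum : (((r * r' : ℝ) : ℂ) * (conj θ * (conj ((rp I).coeff 0) *
        (phiPoly h (rp I) (X * rp (S \ I))).eval (s : ℂ)))).re = 0 := by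
      rw [← hD, phiPoly_eval, Finset.mul_sum, Finset.mul_sum, Finset.mul_sum, Complex.re_sum]
      refine Finset.sum_congr rfl (fun j _ => ?_)
      rw [hterm j, ← Complex.re_ofReal_mul]
      congr 1
      push_cast
      ring
    rw [Complex.re_ofReal_mul] at hsum
    exact (mul_eq_zero.mp hsum).resolve_left (mul_ne_zero hr0 hr'0)

/-- The limit system is nonsingular for suitable parameters. -/
theorem core (h : ℕ) (hodd : Odd h) (h3 : 3 ≤ h) : ∃ (s : ℝ) (ε : ℂ), 0 < s ∧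
    ∀ p q : ℂ[X], p.natDegree ≤ h → q.natDegree ≤ h → (p.coeff 0).im = 0 → (q.coeff 0).im = 0 →
    (∑ j ∈ (Finset.range (h + 1)).filter Even, s ^ j * (p.coeff j * conj (q.coeff j)).re = 0) →
    (∀ m, Even m → m ≤ 2 * h → (p * q).coeff m = 0) →
    (∀ m, Odd m → 3 ≤ m → m ≤ 2 * h - 3 → (p * q).coeff m = 0) →
    ((p * q).coeff 1 + ε * (conj (p.coeff (h - 1)) * q.coeff h
      + conj (q.coeff (h - 1)) * p.coeff h) = 0) → p = 0 ∨ q = 0 := by
  have hprim := Complex.isPrimitiveRoot_exp (2 * (h - 1)) (by omega)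
  set S := nthRootsFinset (2 * (h - 1)) (1 : ℂ) with hSdef
  have hS : rp S = X ^ (2 * (h - 1)) - 1 := (X_pow_sub_one_eq_prod (by omega) hprim).symm
  have hmem : ∀ ζ ∈ S, ζ ^ (2 * (h - 1)) = 1 := by
    intro ζ hζ
    exact (mem_nthRootsFinset (by omega) (1 : ℂ)).mp hζ
  have hcard : S.card = 2 * (h - 1) := hprim.card_nthRootsFinset
  obtain ⟨s, θ, hs, hθ, hθN, hgood⟩ := exists_choice h hodd h3 S hS hmem hcard
  refine ⟨s, θ ^ 2, hs, fun p q hp hq hp0 hq0 hD heven hoddm hone => ?_⟩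
  have htop : p.coeff h * q.coeff h = 0 := by
    have h1 := heven (2 * h) (even_two_mul h) le_rfl
    rwa [two_mul, coeff_mul_add_eq_of_natDegree_le hp hq] at h1
  rcases mul_eq_zero.mp htop with h1 | h1
  · refine (core_asym h h3 S hS hmem s θ hθ hθN hgood q p hq hp h1 hq0 hp0 ?_ ?_ ?_ ?_).symm
    · rw [← hD]
      refine Finset.sum_congr rfl (fun j _ => ?_)
      have : (q.coeff j * conj (p.coeff j)).re = (p.coeff j * conj (q.coeff j)).re := by
        simp only [Complex.mul_re, Complex.conj_re, Complex.conj_im]; ring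
      rw [this]
    · intro m hm hm'; rw [mul_comm]; exact heven m hm hm'
    · intro m hm hm' hm''; rw [mul_comm]; exact hoddm m hm hm' hm''
    · rw [mul_comm q p]
      rw [h1, mul_zero, add_zero] at hone
      exact hone
  · refine core_asym h h3 S hS hmem s θ hθ hθN hgood p q hp hq h1 hp0 hq0 hD heven hoddm ?_
    rw [h1, mul_zero, zero_add] at hone
    exact hone

end Pool.Agent.Lib_helper96.OD
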