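import Mathlib
import Pool.Agent.Lib_helper96.OD.Abs
import Pool.Agent.Lib_helper96.OD.Core

/-!
# The model space `ℝ ⊕ ℂ^h` and the family of projections
-/

open scoped ComplexConjugate InnerProductSpace
open Polynomial

namespace Pool.Agent.Lib_helper96.OD

/-- the ambient space `ℝ^{2h+1} = ℝ ⊕ ℂ^h` -/
abbrev EE (h : ℕ) := EuclideanSpace ℝ (Fin (2 * h + 1))

variable {h : ℕ}

/-- real coordinates, extended by zero -/
noncomputable def rc (i : ℕ) : EE h →ₗ[ℝ] ℝ where
  toFun x := if hi : i < 2 * h + 1 then x ⟨i, hi⟩ else 0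
  map_add' x y := by
    split_ifs <;> simp
  map_smul' c x := by
    split_ifs <;> simp

lemma rc_eq (i : ℕ) (hi : i < 2 * h + 1) (x : EE h) : rc i x = x ⟨i, hi⟩ := by
  simp only [rc, LinearMap.coe_mk, AddHom.coe_mk]
  rw [dif_pos hi]

lemma rc_gt (i : ℕ) (hi : 2 * h < i) (x : EE h) : rc i x = 0 := by
  simp only [rc, LinearMap.coe_mk, AddHom.coe_mk]
  rw [dif_neg (by omega)]

/-- complex coordinates, extended by zero -/
noncomputable def co (j : ℕ) : EE h →ₗ[ℝ] ℂ where
  toFun x := if j = 0 then (rc 0 x : ℂ) else (rc (2 * j - 1) x : ℂ) + (rc (2 * j) x : ℂ) * Complex.I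
  map_add' x y := by
    split_ifs
    · rw [map_add]; push_cast; ring
    · rw [map_add, map_add]; push_cast; ring
  map_smul' c x := by
    split_ifs
    · rw [map_smul]; simp
    · rw [map_smul, map_smul]
      simp only [smul_eq_mul, RingHom.id_apply, Complex.real_smul]
      push_cast; ring

lemma co_zero (x : EE h) : co 0 x = (rc 0 x : ℂ) := by
  simp [co]

lemma co_pos (j : ℕ) (hj : j ≠ 0) (x : EE h) :
    co j x = (rc (2 * j - 1) x : ℂ) + (rc (2 * j) x : ℂ) * Complex.I := by
  simp [co, hj]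

lemma co_gt (j : ℕ) (hj : h < j) (x : EE h) : co j x = 0 := by
  rw [co_pos j (by omega), rc_gt _ (by omega), rc_gt _ (by omega)]
  simp

lemma co_zero_im (x : EE h) : (co 0 x).im = 0 := by
  rw [co_zero]; exact Complex.ofReal_im _

lemma co_ext (x y : EE h) (hxy : ∀ j ≤ h, co j x = co j y) : x = y := by
  ext ⟨i, hi⟩
  rw [← rc_eq i hi, ← rc_eq i hi]
  rcases Nat.even_or_odd' i with ⟨j, hj | hj⟩
  · by_cases h0 : j = 0
    · have h1 := hxy 0 (by omega)
      rw [co_zero, co_zero] at h1
      rw [hj, h0]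
      exact_mod_cast h1
    · have h1 := congrArg Complex.im (hxy j (by omega))
      rw [co_pos j h0, co_pos j h0] at h1
      rw [hj]
      simpa using h1
  · have h1 := congrArg Complex.re (hxy (j + 1) (by omega))
    rw [co_pos _ (by omega), co_pos _ (by omega)] at h1
    rw [hj]
    rw [show 2 * (j + 1) - 1 = 2 * j + 1 by omega] at h1
    simpa using h1

lemma co_continuous (j : ℕ) : Continuous (fun x : EE h => co j x) :=
  LinearMap.continuous_of_finiteDimensional (co j)

lemma sum_pairs (f : ℕ → ℝ) (h : ℕ) : ∑ i ∈ Finset.range (2 * h + 1), f i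
    = f 0 + ∑ j ∈ Finset.range h, (f (2 * (j + 1) - 1) + f (2 * (j + 1))) := by
  induction h with
  | zero => simp
  | succ n ih =>
    rw [show 2 * (n + 1) + 1 = (2 * n + 1) + 1 + 1 by ring, Finset.sum_range_succ,
      Finset.sum_range_succ, ih, Finset.sum_range_succ _ n]
    rw [show 2 * (n + 1) - 1 = 2 * n + 1 by omega, show 2 * (n + 1) = 2 * n + 1 + 1 by ring]
    ring

lemma inner_eq (x y : EE h) :
    ⟪x, y⟫_ℝ = ∑ j ∈ Finset.range (h + 1), (co j x * conj (co j y)).re := by
  have h1 : ⟪x, y⟫_ℝ = ∑ i ∈ Finset.range (2 * h + 1), rc i x * rc i y := by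
    rw [PiLp.inner_apply, Finset.sum_range]
    refine Finset.sum_congr rfl (fun i _ => ?_)
    rw [rc_eq _ i.isLt, rc_eq _ i.isLt]
    simp [mul_comm]
  rw [h1, sum_pairs, Finset.sum_range_succ', add_comm]
  congr 1
  · refine Finset.sum_congr rfl (fun j _ => ?_)
    rw [co_pos _ (by omega), co_pos _ (by omega)]
    simp
  · rw [co_zero, co_zero]
    simp

/-- vector with given coordinates -/
noncomputable def mkE (h : ℕ) (f : ℕ → ℂ) : EE h :=
  WithLp.toLp 2 (fun i : Fin (2 * h + 1) =>
    if (i : ℕ) = 0 then (f 0).re else if Odd (i : ℕ) then (f ((i + 1) / 2)).re else (f (i / 2)).im)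

lemma co_mkE (f : ℕ → ℂ) (hf : (f 0).im = 0) (j : ℕ) (hj : j ≤ h) : co j (mkE h f) = f j := by
  by_cases h0 : j = 0
  · subst h0
    rw [co_zero, rc_eq 0 (by omega)]
    simp only [mkE, if_true]
    exact Complex.ext (by simp) (by simpa using hf.symm)
  · rw [co_pos j h0, rc_eq _ (by omega), rc_eq _ (by omega)]
    have e1 : ¬ (2 * j - 1 = 0) := by omega
    have e2 : Odd (2 * j - 1) := ⟨j - 1, by omega⟩
    have e3 : ¬ (2 * j = 0) := by omega
    have e4 : ¬ Odd (2 * j) := by simp
    have e5 : (2 * j - 1 + 1) / 2 = j := by omega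
    have e6 : 2 * j / 2 = j := by omega
    simp only [mkE, e1, e2, e3, e4, e5, e6, if_true, if_false]
    exact Complex.re_add_im (f j)

/-- even coordinates -/
noncomputable def evenE (h : ℕ) : Submodule ℝ (EE h) where
  carrier := {x | ∀ j, Odd j → co j x = 0}
  add_mem' := by
    intro x y hx hy j hj
    rw [map_add, hx j hj, hy j hj, add_zero]
  zero_mem' := by
    intro j _
    exact map_zero _
  smul_mem' := by
    intro c x hx j hj
    rw [map_smul, hx j hj, smul_zero]

lemma mem_evenE (x : EE h) : x ∈ evenE h ↔ ∀ j, Odd j → co j x = 0 := Iff.rfl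

/-- even part -/
noncomputable def evp (x : EE h) : EE h :=
  mkE h (fun j => if Even j then co j x else 0)

lemma co_evp (x : EE h) (j : ℕ) : co j (evp x) = if Even j then co j x else 0 := by
  by_cases hj : j ≤ h
  · exact co_mkE _ (by simp [co_zero_im]) j hj
  · rw [co_gt j (by omega), co_gt j (by omega)]
    simp

lemma evp_mem (x : EE h) : evp x ∈ evenE h := by
  intro j hj
  rw [co_evp, if_neg (Nat.not_even_iff_odd.mpr hj)]

lemma proj_even (x : EE h) : (evenE h).starProjection x = evp x := by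
  apply Submodule.eq_starProjection_of_mem_of_inner_eq_zero (evp_mem x)
  intro w hw
  rw [inner_eq]
  apply Finset.sum_eq_zero
  intro j _
  rw [map_sub, co_evp]
  rcases Nat.even_or_odd j with hj | hj
  · rw [if_pos hj]; simp
  · rw [(mem_evenE w).mp hw j hj]; simp

lemma inner_proj_even (x y : EE h) : ⟪(evenE h).starProjection x, y⟫_ℝ
    = ∑ j ∈ (Finset.range (h + 1)).filter Even, (co j x * conj (co j y)).re := by
  rw [proj_even, inner_eq, Finset.sum_filter]
  refine Finset.sum_congr rfl (fun j _ => ?_)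
  rw [co_evp]
  split_ifs <;> simp

lemma mem_evenE_orth (x : EE h) (hx : x ∈ (evenE h)ᗮ) : ∀ j, Even j → co j x = 0 := by
  intro j hj
  by_cases hjh : j ≤ h
  · have h1 : ⟪evp x, x⟫_ℝ = 0 := hx _ (evp_mem x)
    rw [← proj_even, inner_proj_even] at h1
    have h2 : ∀ i ∈ (Finset.range (h + 1)).filter Even, 0 ≤ (co i x * conj (co i x)).re := by
      intro i _
      rw [Complex.mul_conj, Complex.ofReal_re]
      exact Complex.normSq_nonneg _
    have h3 := (Finset.sum_eq_zero_iff_of_nonneg h2).mp h1 j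
      (Finset.mem_filter.mpr ⟨Finset.mem_range.mpr (by omega), hj⟩)
    rw [Complex.mul_conj, Complex.ofReal_re] at h3
    exact Complex.normSq_eq_zero.mp h3
  · exact co_gt j (by omega) x

/-- scaling of the coordinates -/
noncomputable def scal (k : ℕ → ℝ) : EE h →ₗ[ℝ] EE h where
  toFun x := mkE h (fun j => (k j : ℂ) * co j x)
  map_add' x y := by
    apply co_ext
    intro j hj
    rw [map_add, co_mkE _ (by simp [co_zero_im]) j hj, co_mkE _ (by simp [co_zero_im]) j hj,
      co_mkE _ (by simp [co_zero_im]) j hj, map_add, mul_add]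
  map_smul' c x := by
    apply co_ext
    intro j hj
    rw [RingHom.id_apply, map_smul, co_mkE _ (by simp [co_zero_im]) j hj,
      co_mkE _ (by simp [co_zero_im]) j hj, map_smul]
    simp only [Complex.real_smul]
    ring

lemma co_scal (k : ℕ → ℝ) (x : EE h) (j : ℕ) : co j (scal k x) = (k j : ℂ) * co j x := by
  by_cases hj : j ≤ h
  · exact co_mkE (fun j => (k j : ℂ) * co j x) (by simp [co_zero_im]) j hj
  · rw [co_gt j (by omega), co_gt j (by omega), mul_zero]

lemma scal_eq_zero (k : ℕ → ℝ) (hk : ∀ j, k j ≠ 0) (x : EE h) (hx : scal k x = 0) : x = 0 := by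
  apply co_ext
  intro j _
  have h1 := congrArg (co j) hx
  rw [co_scal, map_zero] at h1
  rw [map_zero]
  exact (mul_eq_zero.mp h1).resolve_left (by exact_mod_cast hk j)

/-- polynomial attached to a vector -/
noncomputable def pol (x : EE h) : ℂ[X] := ∑ j ∈ Finset.range (h + 1), C (co j x) * X ^ j

lemma pol_coeff (x : EE h) (j : ℕ) : (pol x).coeff j = co j x := by
  unfold pol
  rw [finsetSum_coeff]
  by_cases hj : j ≤ h
  · rw [Finset.sum_eq_single j]
    · rw [coeff_C_mul_X_pow, if_pos rfl]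
    · intro b _ hb
      rw [coeff_C_mul_X_pow, if_neg (Ne.symm hb)]
    · intro hb
      exact absurd (Finset.mem_range.mpr (by omega)) hb
  · rw [co_gt j (by omega)]
    apply Finset.sum_eq_zero
    intro b hb
    rw [Finset.mem_range] at hb
    rw [coeff_C_mul_X_pow, if_neg (by omega)]

lemma pol_natDegree (x : EE h) : (pol x).natDegree ≤ h := by
  rw [natDegree_le_iff_coeff_eq_zero]
  intro n hn
  rw [pol_coeff, co_gt n hn]

lemma pol_eq_zero (x : EE h) (hx : pol x = 0) : x = 0 := by
  apply co_ext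
  intro j _
  rw [← pol_coeff, hx, coeff_zero, map_zero]

lemma pol_mul_coeff (x y : EE h) (m : ℕ) : (pol x * pol y).coeff m
    = ∑ a ∈ Finset.HasAntidiagonal.antidiagonal m, co a.1 x * co a.2 y := by
  rw [coeff_mul]
  refine Finset.sum_congr rfl (fun a _ => ?_)
  rw [pol_coeff, pol_coeff]

/-- the odd forms -/
noncomputable def tau (h : ℕ) (ε : ℂ) (l : ℕ) (x y : EE h) : ℂ :=
  ∑ a ∈ Finset.HasAntidiagonal.antidiagonal (2 * l + 1), co a.1 x * co a.2 y
    + if l = 0 then ε * (conj (co (h - 1) x) * co h y + conj (co (h - 1) y) * co h x) else 0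

lemma tau_symm (ε : ℂ) (l : ℕ) (x y : EE h) : tau h ε l x y = tau h ε l y x := by
  unfold tau
  rw [← pol_mul_coeff, ← pol_mul_coeff, mul_comm (pol x)]
  congr 1
  split_ifs
  · ring
  · rfl

lemma tau_add_left (ε : ℂ) (l : ℕ) (x x' y : EE h) :
    tau h ε l (x + x') y = tau h ε l x y + tau h ε l x' y := by
  unfold tau
  simp only [map_add, add_mul, mul_add, Finset.sum_add_distrib]
  split_ifs <;> ring

lemma tau_smul_left (ε : ℂ) (l : ℕ) (c : ℝ) (x y : EE h) :
    tau h ε l (c • x) y = c * tau h ε l x y := by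
  unfold tau
  simp only [map_smul, Complex.real_smul, map_mul, Complex.conj_ofReal]
  rw [mul_add (c : ℂ), Finset.mul_sum]
  congr 1
  · exact Finset.sum_congr rfl (fun a _ => by ring)
  · split_ifs
    · ring
    · ring

lemma tau_add_right (ε : ℂ) (l : ℕ) (x y y' : EE h) :
    tau h ε l x (y + y') = tau h ε l x y + tau h ε l x y' := by
  rw [tau_symm, tau_add_left, tau_symm ε l y, tau_symm ε l y']

lemma tau_smul_right (ε : ℂ) (l : ℕ) (c : ℝ) (x y : EE h) :
    tau h ε l x (c • y) = c * tau h ε l x y := by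
  rw [tau_symm, tau_smul_left, tau_symm]

lemma tau_even (hodd : Odd h) (ε : ℂ) (l : ℕ) (x y : EE h) (hx : ∀ j, Odd j → co j x = 0)
    (hy : ∀ j, Odd j → co j y = 0) : tau h ε l x y = 0 := by
  unfold tau
  rw [hx h hodd, hy h hodd]
  have h1 : ∑ a ∈ Finset.HasAntidiagonal.antidiagonal (2 * l + 1), co a.1 x * co a.2 y = 0 := by
    apply Finset.sum_eq_zero
    intro a ha
    have ha' : a.1 + a.2 = 2 * l + 1 := by simpa using ha
    rcases Nat.even_or_odd a.1 with h1 | h1
    · have : Odd a.2 := by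
        rw [← Nat.not_even_iff_odd]
        intro h2
        have := h1.add h2
        rw [ha'] at this
        exact absurd this (by simp)
      rw [hy _ this, mul_zero]
    · rw [hx _ h1, zero_mul]
  rw [h1]
  simp

lemma tau_odd (hodd : Odd h) (ε : ℂ) (l : ℕ) (x y : EE h) (hx : ∀ j, Even j → co j x = 0)
    (hy : ∀ j, Even j → co j y = 0) : tau h ε l x y = 0 := by
  unfold tau
  have h0 : Even (h - 1) := by
    obtain ⟨r, hr⟩ := hodd
    exact ⟨r, by omega⟩
  rw [hx (h - 1) h0, hy (h - 1) h0]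
  have h1 : ∑ a ∈ Finset.HasAntidiagonal.antidiagonal (2 * l + 1), co a.1 x * co a.2 y = 0 := by
    apply Finset.sum_eq_zero
    intro a ha
    have ha' : a.1 + a.2 = 2 * l + 1 := by simpa using ha
    rcases Nat.even_or_odd a.1 with h1 | h1
    · rw [hx _ h1, zero_mul]
    · have : Even a.2 := by
        rw [← Nat.not_odd_iff_even]
        intro h2
        have := h1.add_odd h2
        rw [ha'] at this
        exact absurd this (by simp)
      rw [hy _ this, mul_zero]
  rw [h1]
  simp

/-- coefficients of the deformed polynomials -/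
noncomputable def rt (t : ℝ) (x : EE h) (i : ℕ) : ℂ :=
  if h ≤ i then co (i - h) x else ((t : ℂ) ^ 2) ^ (h - i) * conj (co (h - i) x)

lemma rt_gt (t : ℝ) (x : EE h) (i : ℕ) (hi : 2 * h < i) : rt t x i = 0 := by
  unfold rt
  rw [if_pos (by omega), co_gt _ (by omega)]

lemma rt_smul (t : ℝ) (c : ℝ) (x : EE h) (i : ℕ) : rt t (c • x) i = c * rt t x i := by
  unfold rt
  split_ifs
  · rw [map_smul, Complex.real_smul]
  · rw [map_smul, Complex.real_smul, map_mul, Complex.conj_ofReal]; ring

lemma rt_continuous (i : ℕ) : Continuous (fun p : ℝ × EE h => rt p.1 p.2 i) := by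
  unfold rt
  split_ifs
  · exact (co_continuous _).comp continuous_snd
  · apply Continuous.mul
    · exact ((Complex.continuous_ofReal.comp continuous_fst).pow 2).pow _
    · exact Complex.continuous_conj.comp ((co_continuous _).comp continuous_snd)

/-- deformed even forms -/
noncomputable def evf (m : ℕ) (t : ℝ) (x y : EE h) : ℂ :=
  ∑ a ∈ Finset.HasAntidiagonal.antidiagonal (2 * h + 2 * m), rt t x a.1 * rt t y a.2

/-- deformed polynomial -/
noncomputable def polR (t : ℝ) (x : EE h) : ℂ[X] :=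
  ∑ i ∈ Finset.range (2 * h + 1), C (rt t x i) * X ^ i

lemma polR_coeff (t : ℝ) (x : EE h) (i : ℕ) : (polR t x).coeff i = rt t x i := by
  unfold polR
  rw [finsetSum_coeff]
  by_cases hj : i ≤ 2 * h
  · rw [Finset.sum_eq_single i]
    · rw [coeff_C_mul_X_pow, if_pos rfl]
    · intro b _ hb
      rw [coeff_C_mul_X_pow, if_neg (Ne.symm hb)]
    · intro hb
      exact absurd (Finset.mem_range.mpr (by omega)) hb
  · rw [rt_gt t x i (by omega)]
    apply Finset.sum_eq_zero
    intro b hb
    rw [Finset.mem_range] at hb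
    rw [coeff_C_mul_X_pow, if_neg (by omega)]

lemma polR_natDegree (t : ℝ) (x : EE h) : (polR t x).natDegree ≤ 2 * h := by
  rw [natDegree_le_iff_coeff_eq_zero]
  intro n hn
  rw [polR_coeff, rt_gt t x n hn]

lemma polR_zero (x : EE h) : polR 0 x = X ^ h * pol x := by
  ext i
  rw [polR_coeff, coeff_X_pow_mul', pol_coeff]
  unfold rt
  split_ifs with h1
  · rfl
  · rw [Complex.ofReal_zero, zero_pow two_ne_zero, zero_pow (by omega), zero_mul]

lemma evf_eq (m : ℕ) (t : ℝ) (x y : EE h) :
    evf m t x y = (polR t x * polR t y).coeff (2 * h + 2 * m) := by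
  rw [coeff_mul]
  unfold evf
  refine Finset.sum_congr rfl (fun a _ => ?_)
  rw [polR_coeff, polR_coeff]

lemma evf_zero (m : ℕ) (x y : EE h) : evf m 0 x y = (pol x * pol y).coeff (2 * m) := by
  rw [evf_eq, polR_zero, polR_zero]
  have : X ^ h * pol x * (X ^ h * pol y) = X ^ (2 * h) * (pol x * pol y) := by ring
  rw [this, add_comm (2 * h), coeff_X_pow_mul]

end Pool.Agent.Lib_helper96.OD
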