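import Mathlib
import Pool.Agent.Lib_helper96.OD.Model

/-!
# The family of `4h` subspaces of `ℝ^{2h+1}`, `h` odd
-/

open scoped ComplexConjugate InnerProductSpace
open Polynomial

namespace Pool.Agent.Lib_helper96.OD

variable {h : ℕ}

/-- weights -/
noncomputable def wt (t : ℝ) (j : ℕ) : ℝ := if j = 0 then 1 / 2 else t ^ j

/-- even part of the trigonometric polynomial -/
noncomputable def fev (t : ℝ) (z : ℂ) (x : EE h) : ℝ :=
  ∑ j ∈ (Finset.range (h + 1)).filter Even, wt t j * (co j x * z ^ j).re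

/-- odd part of the trigonometric polynomial -/
noncomputable def fod (t : ℝ) (z : ℂ) (x : EE h) : ℝ :=
  ∑ j ∈ (Finset.range (h + 1)).filter (fun j => ¬ Even j), wt t j * (co j x * z ^ j).re

/-- the trigonometric polynomial -/
noncomputable def ft (t : ℝ) (z : ℂ) (x : EE h) : ℝ :=
  ∑ j ∈ Finset.range (h + 1), wt t j * (co j x * z ^ j).re

lemma ft_eq (t : ℝ) (z : ℂ) (x : EE h) : ft t z x = fev t z x + fod t z x := by
  unfold ft fev fod
  rw [Finset.sum_filter_add_sum_filter_not]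

lemma ft_neg (t : ℝ) (z : ℂ) (x : EE h) : ft t (-z) x = fev t z x - fod t z x := by
  unfold ft fev fod
  rw [← Finset.sum_filter_add_sum_filter_not (Finset.range (h + 1)) Even, sub_eq_add_neg,
    ← Finset.sum_neg_distrib]
  congr 1
  · refine Finset.sum_congr rfl (fun j hj => ?_)
    rw [(Finset.mem_filter.mp hj).2.neg_pow]
  · refine Finset.sum_congr rfl (fun j hj => ?_)
    rw [(Nat.not_even_iff_odd.mp (Finset.mem_filter.mp hj).2).neg_pow, mul_neg, Complex.neg_re]
    ring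

lemma polR_eval (t : ℝ) (z : ℂ) (hz : z * conj z = 1) (x : EE h) :
    (polR t x).eval ((t : ℂ) * z) = ((t : ℂ) * z) ^ h * (2 * (ft t z x : ℂ)) := by
  have h1 : (polR t x).eval ((t : ℂ) * z)
      = ∑ i ∈ Finset.range (h + (h + 1)), rt t x i * ((t : ℂ) * z) ^ i := by
    unfold polR
    rw [eval_finsetSum, show 2 * h + 1 = h + (h + 1) by ring]
    simp only [eval_mul, eval_C, eval_pow, eval_X]
  rw [h1, Finset.sum_range_add, ← Finset.sum_range_reflect]
  have h2 : ∀ i ∈ Finset.range h, rt t x (h - 1 - i) * ((t : ℂ) * z) ^ (h - 1 - i)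
      = ((t : ℂ) * z) ^ h * ((t : ℂ) ^ (i + 1) * conj (co (i + 1) x * z ^ (i + 1))) := by
    intro i hi
    rw [Finset.mem_range] at hi
    unfold rt
    rw [if_neg (by omega), show h - (h - 1 - i) = i + 1 by omega]
    have e1 : ((t : ℂ) * z) ^ h = ((t : ℂ) * z) ^ (h - 1 - i) * ((t : ℂ) * z) ^ (i + 1) := by
      rw [← pow_add]; congr 1; omega
    have e2 : z ^ (i + 1) * conj z ^ (i + 1) = 1 := by rw [← mul_pow, hz, one_pow]
    rw [e1, map_mul, map_pow, mul_pow (t : ℂ) z (i + 1), ← pow_mul]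
    have e3 : (t : ℂ) ^ (2 * (i + 1)) = (t : ℂ) ^ (i + 1) * (t : ℂ) ^ (i + 1) := by
      rw [← pow_add]; congr 1; omega
    rw [e3]
    linear_combination (-((t : ℂ) ^ (i + 1) * (t : ℂ) ^ (i + 1) * conj (co (i + 1) x) *
      ((t : ℂ) * z) ^ (h - 1 - i))) * e2
  have h3 : ∀ j ∈ Finset.range (h + 1), rt t x (h + j) * ((t : ℂ) * z) ^ (h + j)
      = ((t : ℂ) * z) ^ h * ((t : ℂ) ^ j * (co j x * z ^ j)) := by
    intro j _
    unfold rt
    rw [if_pos (by omega), Nat.add_sub_cancel_left, pow_add, mul_pow (t : ℂ) z j]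
    ring
  rw [Finset.sum_congr rfl h2, Finset.sum_congr rfl h3, ← Finset.mul_sum, ← Finset.mul_sum,
    ← mul_add]
  congr 1
  unfold ft
  rw [Finset.sum_range_succ', Finset.sum_range_succ']
  push_cast
  rw [mul_add, Finset.mul_sum, ← add_assoc, ← Finset.sum_add_distrib]
  congr 1
  · refine Finset.sum_congr rfl (fun i _ => ?_)
    have e1 := Complex.add_conj (co (i + 1) x * z ^ (i + 1))
    have e2 : wt t (i + 1) = t ^ (i + 1) := by simp [wt]
    rw [e2]
    push_cast at e1 ⊢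
    linear_combination ((t : ℂ) ^ (i + 1)) * e1
  · have e2 : wt t 0 = 1 / 2 := by simp [wt]
    have e3 : co 0 x = ((co 0 x).re : ℂ) := by
      apply Complex.ext
      · simp
      · rw [co_zero_im]; simp
    rw [e2, pow_zero, pow_zero, mul_one, one_mul]
    rw [e3]
    push_cast
    simp

theorem even_forms (t : ℝ) (ht : t ≠ 0) (ζ : ℂ) (hζ : IsPrimitiveRoot ζ (4 * h + 2))
    (hζ2 : ζ ^ (2 * h + 1) = -1) (x y : EE h)
    (hf : ∀ n < 2 * h + 1, fev t (ζ ^ n) x * fev t (ζ ^ n) y + fod t (ζ ^ n) x * fod t (ζ ^ n) y = 0)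
    (m : ℕ) : (polR t x * polR t y).coeff (2 * m) = 0 := by
  set G := polR t x * polR t y with hG
  set H := G + G.comp (-X) with hH
  have hunit : ∀ n : ℕ, ζ ^ n * conj (ζ ^ n) = 1 := by
    intro n
    have h1 : ‖ζ‖ = 1 := Complex.norm_eq_one_of_pow_eq_one hζ.pow_eq_one (by omega)
    rw [Complex.mul_conj, Complex.normSq_eq_norm_sq, norm_pow, h1]; simp
  have hunit' : ∀ n : ℕ, -ζ ^ n * conj (-ζ ^ n) = 1 := by
    intro n
    rw [map_neg, neg_mul_neg]; exact hunit n
  have hval : ∀ n < 2 * h + 1, G.eval ((t : ℂ) * ζ ^ n) + G.eval (-((t : ℂ) * ζ ^ n)) = 0 := by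
    intro n hn
    have e0 : -((t : ℂ) * ζ ^ n) = (t : ℂ) * (-ζ ^ n) := by ring
    rw [e0, hG, eval_mul, eval_mul, polR_eval t _ (hunit n), polR_eval t _ (hunit n),
      polR_eval t _ (hunit' n), polR_eval t _ (hunit' n), ft_eq, ft_eq, ft_neg, ft_neg]
    have e1 : ((t : ℂ) * -ζ ^ n) ^ h * ((t : ℂ) * -ζ ^ n) ^ h
        = ((t : ℂ) * ζ ^ n) ^ h * ((t : ℂ) * ζ ^ n) ^ h := by
      rw [← mul_pow, ← mul_pow]; congr 1; ring
    have e2 : ((fev t (ζ ^ n) x * fev t (ζ ^ n) y + fod t (ζ ^ n) x * fod t (ζ ^ n) y : ℝ) : ℂ) = 0 := by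
      rw [hf n hn]; simp
    push_cast at e2 ⊢
    linear_combination (8 * (((t : ℂ) * ζ ^ n) ^ h * ((t : ℂ) * ζ ^ n) ^ h)) * e2
      + (2 * ((fev t (ζ ^ n) x : ℂ) - fod t (ζ ^ n) x) * (2 * ((fev t (ζ ^ n) y : ℂ)
        - fod t (ζ ^ n) y))) * e1
  have hH0 : H = 0 := by
    apply Polynomial.eq_zero_of_natDegree_lt_card_of_eval_eq_zero H
      (f := fun n : Fin (4 * h + 2) => (t : ℂ) * ζ ^ (n : ℕ))
    · intro a b hab
      simp only at hab
      have h1 := mul_left_cancel₀ (by exact_mod_cast ht : (t : ℂ) ≠ 0) hab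
      exact Fin.ext (hζ.pow_inj a.isLt b.isLt h1)
    · intro n
      rw [hH, eval_add, eval_comp, eval_neg, eval_X]
      by_cases hn : (n : ℕ) < 2 * h + 1
      · exact hval n hn
      · have h1 := hval ((n : ℕ) - (2 * h + 1)) (by omega)
        have h2 : ζ ^ (n : ℕ) = - ζ ^ ((n : ℕ) - (2 * h + 1)) := by
          have : (n : ℕ) = ((n : ℕ) - (2 * h + 1)) + (2 * h + 1) := by omega
          conv_lhs => rw [this]
          rw [pow_add, hζ2]; ring
        rw [h2, mul_neg, neg_neg, add_comm]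
        exact h1
    · rw [Fintype.card_fin]
      have h1 : G.natDegree ≤ 4 * h := by
        have := natDegree_mul_le (p := polR t x) (q := polR t y)
        have h2 := polR_natDegree t x
        have h3 := polR_natDegree t y
        rw [hG]; omega
      have h2 : (G.comp (-X)).natDegree ≤ 4 * h := by
        refine natDegree_comp_le.trans ?_
        rw [natDegree_neg, natDegree_X, mul_one]
        exact h1
      have h3 : H.natDegree ≤ 4 * h := natDegree_add_le_of_degree_le h1 h2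
      omega
  have h1 := congrArg (fun p => p.coeff (2 * m)) hH0
  simp only [hH, coeff_add, coeff_zero] at h1
  have h2 : (G.comp (-X)).coeff (2 * m) = G.coeff (2 * m) := by
    have h3 : (-X : ℂ[X]) = C (-1) * X := by simp
    rw [h3, comp_C_mul_X_coeff, pow_mul]
    simp
  rw [h2] at h1
  have h3 : (2 : ℂ) * G.coeff (2 * m) = 0 := by linear_combination h1
  exact (mul_eq_zero.mp h3).resolve_left two_ne_zero

end Pool.Agent.Lib_helper96.OD
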