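import Mathlib
import Pool.Agent.Lib_helper96.OD.Family

/-!
# `4h` subspaces of `ℝ^{2h+1}` allow phase retrieval, `h ≥ 3` odd
-/

open scoped ComplexConjugate InnerProductSpace
open Polynomial

namespace Pool.Agent.Lib_helper96.OD

variable {h : ℕ}

/-- the forms of the deformed system -/
noncomputable def sysF (h : ℕ) (s : ℝ) (ε : ℂ) : (ℕ ⊕ ℕ ⊕ Unit) → ℝ → EE h → EE h → ℂ
  | Sum.inl m, t, x, y => if m ≤ h then evf m t x y else 0
  | Sum.inr (Sum.inl l), _, x, y => if l < h - 1 then tau h ε l x y else 0
  | Sum.inr (Sum.inr _), _, x, y => ((∑ j ∈ (Finset.range (h + 1)).filter Even,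
      s ^ j * (co j x * conj (co j y)).re : ℝ) : ℂ)

lemma sysF_continuous (s : ℝ) (ε : ℂ) (i : ℕ ⊕ ℕ ⊕ Unit) :
    Continuous (fun p : ℝ × EE h × EE h => sysF h s ε i p.1 p.2.1 p.2.2) := by
  have hx : ∀ j, Continuous (fun p : ℝ × EE h × EE h => co j p.2.1) := fun j =>
    (co_continuous j).comp (continuous_fst.comp continuous_snd)
  have hy : ∀ j, Continuous (fun p : ℝ × EE h × EE h => co j p.2.2) := fun j =>
    (co_continuous j).comp (continuous_snd.comp continuous_snd)
  rcases i with m | l | u
  · simp only [sysF]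
    split_ifs
    · unfold evf
      apply continuous_finsetSum
      intro a _
      apply Continuous.mul
      · exact (rt_continuous a.1).comp (continuous_fst.prodMk (continuous_fst.comp continuous_snd))
      · exact (rt_continuous a.2).comp (continuous_fst.prodMk (continuous_snd.comp continuous_snd))
    · exact continuous_const
  · simp only [sysF]
    split_ifs
    · unfold tau
      apply Continuous.add
      · apply continuous_finsetSum
        intro a _
        exact (hx _).mul (hy _)
      · split_ifs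
        · exact continuous_const.mul (((Complex.continuous_conj.comp (hx _)).mul (hy _)).add
            ((Complex.continuous_conj.comp (hy _)).mul (hx _)))
        · exact continuous_const
    · exact continuous_const
  · simp only [sysF]
    apply Complex.continuous_ofReal.comp
    apply continuous_finsetSum
    intro j _
    exact continuous_const.mul (Complex.continuous_re.comp
      ((hx _).mul (Complex.continuous_conj.comp (hy _))))

lemma sysF_homog (s : ℝ) (ε : ℂ) (i : ℕ ⊕ ℕ ⊕ Unit) (t : ℝ) (a b : ℝ) (x y : EE h) :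
    sysF h s ε i t (a • x) (b • y) = (a : ℂ) * b * sysF h s ε i t x y := by
  rcases i with m | l | u
  · simp only [sysF]
    split_ifs
    · unfold evf
      rw [Finset.mul_sum]
      refine Finset.sum_congr rfl (fun c _ => ?_)
      rw [rt_smul, rt_smul]; ring
    · simp
  · simp only [sysF]
    split_ifs
    · rw [tau_smul_left, tau_smul_right]; ring
    · simp
  · simp only [sysF]
    rw [← Complex.ofReal_mul, ← Complex.ofReal_mul, Finset.mul_sum]
    congr 1
    refine Finset.sum_congr rfl (fun j _ => ?_)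
    rw [map_smul, map_smul, Complex.real_smul, Complex.real_smul, map_mul, Complex.conj_ofReal]
    have : (a : ℂ) * co j x * ((b : ℂ) * conj (co j y))
        = ((a * b : ℝ) : ℂ) * (co j x * conj (co j y)) := by push_cast; ring
    rw [this, Complex.re_ofReal_mul]; ring

/-- the norm condition implies orthogonality -/
lemma inner_of_norm {E : Type*} [NormedAddCommGroup E] [InnerProductSpace ℝ E]
    [FiniteDimensional ℝ E] (K : Submodule ℝ E) (x y : E)
    (hxy : ‖K.starProjection x‖ = ‖K.starProjection y‖) :
    ⟪K.starProjection (x - y), x + y⟫_ℝ = 0 := by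
  have hs : ∀ u v : E, ⟪K.starProjection u, v⟫_ℝ = ⟪K.starProjection u, K.starProjection v⟫_ℝ := by
    intro u v
    have h1 : v - K.starProjection v ∈ Kᗮ := Submodule.sub_starProjection_mem_orthogonal v
    have h2 := h1 _ (Submodule.starProjection_apply_mem K u)
    rw [inner_sub_right] at h2
    linarith
  rw [hs, map_sub, map_add, inner_sub_left, inner_add_right, inner_add_right,
    real_inner_self_eq_norm_sq, real_inner_self_eq_norm_sq, hxy,
    real_inner_comm (K.starProjection y)]
  ring

theorem system (hodd : Odd h) (h3 : 3 ≤ h) :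
    ∃ (K : Submodule ℝ (EE h)) (V : Fin (h - 1) × Bool → Submodule ℝ (EE h))
      (W : Fin (2 * h + 1) → Submodule ℝ (EE h)), ∀ x y : EE h,
      ⟪K.starProjection x, y⟫_ℝ = 0 → (∀ i, ⟪(V i).starProjection x, y⟫_ℝ = 0) →
      (∀ j, ⟪(W j).starProjection x, y⟫_ℝ = 0) → x = 0 ∨ y = 0 := by
  obtain ⟨s, ε, hs, hcore⟩ := core h hodd h3
  obtain ⟨δ, hδ, hns⟩ := small_param (sysF h s ε) (sysF_continuous s ε) (sysF_homog s ε) (by
    intro x y hF
    have hev : ∀ m, m ≤ h → (pol x * pol y).coeff (2 * m) = 0 := by
      intro m hm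
      have := hF (Sum.inl m)
      simp only [sysF] at this
      rw [if_pos hm, evf_zero] at this
      exact this
    have htau : ∀ l, l < h - 1 → tau h ε l x y = 0 := by
      intro l hl
      have := hF (Sum.inr (Sum.inl l))
      simp only [sysF] at this
      rwa [if_pos hl] at this
    have hD := hF (Sum.inr (Sum.inr ()))
    simp only [sysF] at hD
    have hD' : ∑ j ∈ (Finset.range (h + 1)).filter Even, s ^ j * (co j x * conj (co j y)).re = 0 := by
      exact_mod_cast hD
    have c1 : ∀ m, Even m → m ≤ 2 * h → (pol x * pol y).coeff m = 0 := by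
      intro m hm hmh
      obtain ⟨r, hr⟩ := hm
      rw [show m = 2 * r by omega]
      exact hev r (by omega)
    have c2 : ∀ m, Odd m → 3 ≤ m → m ≤ 2 * h - 3 → (pol x * pol y).coeff m = 0 := by
      intro m hm hm3 hmh
      obtain ⟨r, hr⟩ := hm
      have := htau r (by omega)
      unfold tau at this
      rw [if_neg (by omega), add_zero, ← pol_mul_coeff] at this
      rw [hr]; exact this
    have c3 : (pol x * pol y).coeff 1 + ε * (conj ((pol x).coeff (h - 1)) * (pol y).coeff h
        + conj ((pol y).coeff (h - 1)) * (pol x).coeff h) = 0 := by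
      have := htau 0 (by omega)
      unfold tau at this
      rw [if_pos rfl, ← pol_mul_coeff] at this
      simpa only [pol_coeff] using this
    rcases hcore (pol x) (pol y) (pol_natDegree x) (pol_natDegree y)
      (by rw [pol_coeff]; exact co_zero_im x) (by rw [pol_coeff]; exact co_zero_im y)
      (by simpa only [pol_coeff] using hD') c1 c2 c3 with h1 | h1
    · exact Or.inl (pol_eq_zero x h1)
    · exact Or.inr (pol_eq_zero y h1))
  -- the scaling
  set α : ℕ → ℝ := fun j => (Real.sqrt s ^ j)⁻¹ with hα
  have hα0 : ∀ j, 0 < α j := fun j => by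
    have := Real.sqrt_pos.mpr hs
    simp only [hα]; positivity
  have hw0 : ∀ j, 0 < wt δ j := fun j => by
    unfold wt; split_ifs
    · norm_num
    · positivity
  set Ne : ℝ := Real.sqrt (∑ j ∈ (Finset.range (h + 1)).filter Even, (α j * wt δ j) ^ 2) with hNe
  set No : ℝ := Real.sqrt (∑ j ∈ (Finset.range (h + 1)).filter (fun j => ¬ Even j),
    (α j * wt δ j) ^ 2) with hNo
  have hNe0 : 0 < ∑ j ∈ (Finset.range (h + 1)).filter Even, (α j * wt δ j) ^ 2 := by
    apply Finset.sum_pos
    · intro j _
      have := mul_pos (hα0 j) (hw0 j)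
      positivity
    · exact ⟨0, Finset.mem_filter.mpr ⟨Finset.mem_range.mpr (by omega), Even.zero⟩⟩
  have hNo0 : 0 < ∑ j ∈ (Finset.range (h + 1)).filter (fun j => ¬ Even j), (α j * wt δ j) ^ 2 := by
    apply Finset.sum_pos
    · intro j _
      have := mul_pos (hα0 j) (hw0 j)
      positivity
    · exact ⟨1, Finset.mem_filter.mpr ⟨Finset.mem_range.mpr (by omega), by decide⟩⟩
  have hNep : 0 < Ne := Real.sqrt_pos.mpr hNe0
  have hNop : 0 < No := Real.sqrt_pos.mpr hNo0
  have hNe2 : Ne ^ 2 = ∑ j ∈ (Finset.range (h + 1)).filter Even, (α j * wt δ j) ^ 2 :=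
    Real.sq_sqrt hNe0.le
  have hNo2 : No ^ 2 = ∑ j ∈ (Finset.range (h + 1)).filter (fun j => ¬ Even j), (α j * wt δ j) ^ 2 :=
    Real.sq_sqrt hNo0.le
  set k : ℕ → ℝ := fun j => if Even j then α j / Ne else α j / No with hk
  have hke : ∀ j, Even j → k j = α j / Ne := fun j hj => by simp only [hk]; rw [if_pos hj]
  have hko : ∀ j, ¬ Even j → k j = α j / No := fun j hj => by simp only [hk]; rw [if_neg hj]
  have hk0 : ∀ j, k j ≠ 0 := by
    intro j
    by_cases hj : Even j
    · rw [hke j hj]; exact (div_pos (hα0 j) hNep).ne'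
    · rw [hko j hj]; exact (div_pos (hα0 j) hNop).ne'
  -- vectors
  set av : ℂ → EE h := fun z => mkE h (fun j => if Even j then ((k j * wt δ j : ℝ) : ℂ) * conj z ^ j
    else 0) with hav
  set bv : ℂ → EE h := fun z => mkE h (fun j => if Even j then 0 else
    ((k j * wt δ j : ℝ) : ℂ) * conj z ^ j) with hbv
  have coa : ∀ z j, j ≤ h → co j (av z)
      = if Even j then ((k j * wt δ j : ℝ) : ℂ) * conj z ^ j else 0 := by
    intro z j hj
    exact co_mkE (fun j => if Even j then ((k j * wt δ j : ℝ) : ℂ) * conj z ^ j else 0)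
      (by simp) j hj
  have cob : ∀ z j, j ≤ h → co j (bv z)
      = if Even j then 0 else ((k j * wt δ j : ℝ) : ℂ) * conj z ^ j := by
    intro z j hj
    exact co_mkE (fun j => if Even j then 0 else ((k j * wt δ j : ℝ) : ℂ) * conj z ^ j)
      (by simp) j hj
  have ina : ∀ z x, ⟪x, av z⟫_ℝ = fev δ z (scal k x) := by
    intro z x
    rw [inner_eq]
    unfold fev
    rw [Finset.sum_filter]
    refine Finset.sum_congr rfl (fun j hj => ?_)
    rw [coa z j (by rw [Finset.mem_range] at hj; omega)]
    split_ifs with he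
    · rw [map_mul, map_pow, Complex.conj_conj, Complex.conj_ofReal, co_scal]
      have : co j x * (((k j * wt δ j : ℝ) : ℂ) * z ^ j)
          = ((wt δ j : ℝ) : ℂ) * ((k j : ℂ) * co j x * z ^ j) := by push_cast; ring
      rw [this, Complex.re_ofReal_mul]
    · simp
  have inb : ∀ z x, ⟪x, bv z⟫_ℝ = fod δ z (scal k x) := by
    intro z x
    rw [inner_eq]
    unfold fod
    rw [Finset.sum_filter]
    refine Finset.sum_congr rfl (fun j hj => ?_)
    rw [cob z j (by rw [Finset.mem_range] at hj; omega)]
    by_cases he : Even j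
    · rw [if_pos he, if_neg (not_not.mpr he)]; simp
    · rw [if_neg he, if_pos he, map_mul, map_pow, Complex.conj_conj, Complex.conj_ofReal, co_scal]
      have : co j x * (((k j * wt δ j : ℝ) : ℂ) * z ^ j)
          = ((wt δ j : ℝ) : ℂ) * ((k j : ℂ) * co j x * z ^ j) := by push_cast; ring
      rw [this, Complex.re_ofReal_mul]
  have hzz : ∀ z : ℂ, z * conj z = 1 → ∀ (r : ℝ) (j : ℕ),
      (((r : ℂ) * conj z ^ j) * conj ((r : ℂ) * conj z ^ j)).re = r ^ 2 := by
    intro z hz r j
    rw [map_mul, map_pow, Complex.conj_conj, Complex.conj_ofReal]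
    have : (r : ℂ) * conj z ^ j * ((r : ℂ) * z ^ j) = ((r ^ 2 : ℝ) : ℂ) := by
      have e2 : z ^ j * conj z ^ j = 1 := by rw [← mul_pow, hz, one_pow]
      push_cast
      linear_combination ((r : ℂ) ^ 2) * e2
    rw [this, Complex.ofReal_re]
  have haa : ∀ z : ℂ, z * conj z = 1 → ⟪av z, av z⟫_ℝ = 1 := by
    intro z hz
    rw [inner_eq]
    have h1 : ∑ j ∈ Finset.range (h + 1), (co j (av z) * conj (co j (av z))).re
        = ∑ j ∈ (Finset.range (h + 1)).filter Even, (α j * wt δ j) ^ 2 / Ne ^ 2 := by
      rw [Finset.sum_filter]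
      refine Finset.sum_congr rfl (fun j hj => ?_)
      rw [coa z j (by rw [Finset.mem_range] at hj; omega)]
      split_ifs with he
      · rw [hzz z hz, hke j he]; field_simp
      · simp
    rw [h1, ← Finset.sum_div, ← hNe2, div_self (by positivity)]
  have hbb : ∀ z : ℂ, z * conj z = 1 → ⟪bv z, bv z⟫_ℝ = 1 := by
    intro z hz
    rw [inner_eq]
    have h1 : ∑ j ∈ Finset.range (h + 1), (co j (bv z) * conj (co j (bv z))).re
        = ∑ j ∈ (Finset.range (h + 1)).filter (fun j => ¬ Even j), (α j * wt δ j) ^ 2 / No ^ 2 := by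
      rw [Finset.sum_filter]
      refine Finset.sum_congr rfl (fun j hj => ?_)
      rw [cob z j (by rw [Finset.mem_range] at hj; omega)]
      by_cases he : Even j
      · rw [if_pos he, if_neg (not_not.mpr he)]; simp
      · rw [if_neg he, if_pos he, hzz z hz, hko j he]; field_simp
    rw [h1, ← Finset.sum_div, ← hNo2, div_self (by positivity)]
  have hab : ∀ z : ℂ, ⟪av z, bv z⟫_ℝ = 0 := by
    intro z
    rw [inner_eq]
    apply Finset.sum_eq_zero
    intro j hj
    rw [Finset.mem_range] at hj
    rw [coa z j (by omega), cob z j (by omega)]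
    split_ifs <;> simp
  -- the root of unity
  set ζ : ℂ := Complex.exp (2 * Real.pi * Complex.I / ((4 * h + 2 : ℕ) : ℂ)) with hζdef
  have hζ : IsPrimitiveRoot ζ (4 * h + 2) := Complex.isPrimitiveRoot_exp (4 * h + 2) (by omega)
  have hζ2 : ζ ^ (2 * h + 1) = -1 := by
    have h1 : (ζ ^ (2 * h + 1)) ^ 2 = 1 := by
      rw [← pow_mul, show (2 * h + 1) * 2 = 4 * h + 2 by ring, hζ.pow_eq_one]
    rcases sq_eq_one_iff.mp h1 with h2 | h2
    · exact absurd h2 (hζ.pow_ne_one_of_pos_of_lt (by omega) (by omega))
    · exact h2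
  have hunit : ∀ n : ℕ, ζ ^ n * conj (ζ ^ n) = 1 := by
    intro n
    have h1 : ‖ζ‖ = 1 := Complex.norm_eq_one_of_pow_eq_one hζ.pow_eq_one (by omega)
    rw [Complex.mul_conj, Complex.normSq_eq_norm_sq, norm_pow, h1]; simp
  set W : Fin (2 * h + 1) → Submodule ℝ (EE h) :=
    fun n => Submodule.span ℝ {av (ζ ^ (n : ℕ)), bv (ζ ^ (n : ℕ))} with hW
  -- the forms
  set T : Fin (h - 1) × Bool → EE h →ₗ[ℝ] EE h →ₗ[ℝ] ℝ := fun i =>
    LinearMap.mk₂ ℝ (fun x y => if i.2 then (tau h ε i.1 (scal k x) (scal k y)).re
      else (tau h ε i.1 (scal k x) (scal k y)).im)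
      (by intro x x' y; simp only [map_add, tau_add_left]; split_ifs <;> simp)
      (by intro c x y; simp only [map_smul, tau_smul_left]; split_ifs <;> simp)
      (by intro x y y'; simp only [map_add, tau_add_right]; split_ifs <;> simp)
      (by intro c x y; simp only [map_smul, tau_smul_right]; split_ifs <;> simp) with hT
  have hTapp : ∀ i x y, T i x y = if i.2 then (tau h ε i.1 (scal k x) (scal k y)).re
      else (tau h ε i.1 (scal k x) (scal k y)).im := fun i x y => rfl
  have hfin := perturb (evenE h) T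
    (by
      intro i x y
      rw [hTapp, hTapp, tau_symm])
    (by
      intro i x hx y hy
      rw [hTapp, tau_even hodd ε i.1 _ _ (fun j hj => by rw [co_scal, hx j hj, mul_zero])
        (fun j hj => by rw [co_scal, hy j hj, mul_zero])]
      simp)
    (by
      intro i x hx y hy
      rw [hTapp, tau_odd hodd ε i.1 _ _
        (fun j hj => by rw [co_scal, mem_evenE_orth x hx j hj, mul_zero])
        (fun j hj => by rw [co_scal, mem_evenE_orth y hy j hj, mul_zero])]
      simp)
    W
    (by
      intro x y h1 h2 h4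
      have h5 : ∀ n < 2 * h + 1, fev δ (ζ ^ n) (scal k x) * fev δ (ζ ^ n) (scal k y)
          + fod δ (ζ ^ n) (scal k x) * fod δ (ζ ^ n) (scal k y) = 0 := by
        intro n hn
        have h6 := h4 ⟨n, hn⟩
        simp only [hW] at h6
        rw [rank_two _ _ (haa _ (hunit n)) (hbb _ (hunit n)) (hab _), ina, ina, inb, inb] at h6
        exact h6
      have h6 := even_forms δ hδ.ne' ζ hζ hζ2 (scal k x) (scal k y) h5
      have h7 : ∀ l, l < h - 1 → tau h ε l (scal k x) (scal k y) = 0 := by
        intro l hl
        have h8 := h2 (⟨l, hl⟩, true)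
        have h9 := h2 (⟨l, hl⟩, false)
        rw [hTapp] at h8 h9
        simp only [if_true, Bool.false_eq_true, if_false] at h8 h9
        exact Complex.ext h8 h9
      have h8 : ∑ j ∈ (Finset.range (h + 1)).filter Even,
          s ^ j * (co j (scal k x) * conj (co j (scal k y))).re = 0 := by
        have h9 : ∀ j ∈ (Finset.range (h + 1)).filter Even,
            s ^ j * (co j (scal k x) * conj (co j (scal k y))).re
              = (Ne ^ 2)⁻¹ * (co j x * conj (co j y)).re := by
          intro j hj
          rw [co_scal, co_scal, map_mul, Complex.conj_ofReal, hke j (Finset.mem_filter.mp hj).2]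
          have e1 : ((α j / Ne : ℝ) : ℂ) * co j x * (((α j / Ne : ℝ) : ℂ) * conj (co j y))
              = (((α j / Ne) ^ 2 : ℝ) : ℂ) * (co j x * conj (co j y)) := by push_cast; ring
          rw [e1, Complex.re_ofReal_mul]
          have e2 : s ^ j * (α j / Ne) ^ 2 = (Ne ^ 2)⁻¹ := by
            have e3 : (Real.sqrt s ^ j) ^ 2 = s ^ j := by
              rw [← pow_mul, mul_comm j 2, pow_mul, Real.sq_sqrt hs.le]
            simp only [hα]
            rw [div_pow, inv_pow, e3]
            have : s ^ j ≠ 0 := (pow_pos hs j).ne'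
            field_simp
          rw [← mul_assoc, e2]
        rw [Finset.sum_congr rfl h9, ← Finset.mul_sum, ← inner_proj_even, h1, mul_zero]
      have h9 : ∀ i, sysF h s ε i δ (scal k x) (scal k y) = 0 := by
        intro i
        rcases i with m | l | u
        · simp only [sysF]
          split_ifs
          · rw [evf_eq, ← mul_add]; exact h6 (h + m)
          · rfl
        · simp only [sysF]
          split_ifs with hl
          · exact h7 l hl
          · rfl
        · simp only [sysF]
          rw [h8]; simp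
      rcases hns _ _ h9 with h10 | h10
      · exact Or.inl (scal_eq_zero k hk0 x h10)
      · exact Or.inr (scal_eq_zero k hk0 y h10))
  obtain ⟨V, hV⟩ := hfin
  exact ⟨evenE h, V, W, hV⟩

theorem exists_family_odd (h : ℕ) (hodd : Odd h) (h3 : 3 ≤ h) :
    ∃ W : Fin (4 * h) → Submodule ℝ (EuclideanSpace ℝ (Fin (2 * h + 1))),
      ∀ x y : EuclideanSpace ℝ (Fin (2 * h + 1)),
        (∀ n, ‖(W n).starProjection x‖ = ‖(W n).starProjection y‖) → x = y ∨ x = -y := by
  obtain ⟨K, V, W, hns⟩ := system hodd h3
  have hcard : Fintype.card (Option (Fin (h - 1) × Bool) ⊕ Fin (2 * h + 1)) = 4 * h := by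
    simp only [Fintype.card_sum, Fintype.card_option, Fintype.card_prod, Fintype.card_fin,
      Fintype.card_bool]
    omega
  set e := Fintype.equivFinOfCardEq hcard with he
  set U : Option (Fin (h - 1) × Bool) ⊕ Fin (2 * h + 1) → Submodule ℝ (EE h) := fun i =>
    match i with
    | Sum.inl none => K
    | Sum.inl (some i) => V i
    | Sum.inr j => W j with hU
  refine ⟨fun n => U (e.symm n), fun x y hxy => ?_⟩
  have h1 : ∀ i, ‖(U i).starProjection x‖ = ‖(U i).starProjection y‖ := by
    intro i
    have := hxy (e i)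
    simp only [Equiv.symm_apply_apply] at this
    exact this
  rcases hns (x - y) (x + y) (inner_of_norm _ _ _ (h1 (Sum.inl none)))
    (fun i => inner_of_norm _ _ _ (h1 (Sum.inl (some i))))
    (fun j => inner_of_norm _ _ _ (h1 (Sum.inr j))) with h2 | h2
  · exact Or.inl (sub_eq_zero.mp h2)
  · exact Or.inr (eq_neg_of_add_eq_zero_left h2)

end Pool.Agent.Lib_helper96.OD
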